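import Pool.Agent.helper56.SGE.Comb

/-!
# The cone over a triangulated polygon is a triangulated sphere (module C1)
-/

set_option autoImplicit false
set_option linter.unusedSectionVars false
set_option linter.unusedDecidableInType false

namespace Pool.Agent.helper50.C1

open Pool.Agent.helper56.SGE

variable {α : Type*} [DecidableEq α] {L R : α → α}

/-! ### Consecutive pairs -/

theorem pairs_cons (a b : α) (l : List α) : pairs (a :: b :: l) = (a, b) :: pairs (b :: l) := rfl

theorem pairs_split (xs : List α) (m : α) (ys : List α) :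
    pairs (xs ++ m :: ys) = pairs (xs ++ [m]) ++ pairs (m :: ys) := by
  induction xs with
  | nil => simp [pairs]
  | cons x xs ih =>
    cases xs with
    | nil => simp [pairs]
    | cons y zs =>
      simp only [List.cons_append, pairs_cons] at ih ⊢
      rw [ih]

/-- the triangle of `m` -/
def T (L R : α → α) (m : α) : Face α := (L m, R m, m)

/-- the triangle of a pair -/
def Cn (h : α) (e : α × α) : Face α := (h, e.1, e.2)

/-- all the faces -/
def FF (L R : α → α) (h a : α) (l : List α) (b : α) : List (Face α) :=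
  l.map (T L R) ++ (pairs (a :: (l ++ [b]))).map (Cn h)

theorem mem_FF_nil {h a b : α} {f : Face α} : f ∈ FF L R h a [] b ↔ f = (h, a, b) := by
  simp [FF, pairs, Cn]

theorem mem_FF_node {h a b m : α} {l r : List α} {f : Face α} :
    f ∈ FF L R h a (l ++ m :: r) b ↔ f ∈ FF L R h a l m ∨ f = T L R m ∨ f ∈ FF L R h m r b := by
  unfold FF
  have e : a :: (l ++ m :: r ++ [b]) = (a :: l) ++ m :: (r ++ [b]) := by simp
  rw [e, pairs_split]
  simp only [List.map_append, List.map_cons, List.mem_append, List.mem_cons, List.cons_append]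
  tauto

theorem perm_FF_node {h a b m : α} {l r : List α} :
    (FF L R h a (l ++ m :: r) b).Perm (FF L R h a l m ++ (T L R m :: FF L R h m r b)) := by
  unfold FF
  have e : a :: (l ++ m :: r ++ [b]) = (a :: l) ++ m :: (r ++ [b]) := by simp
  rw [e, pairs_split]
  simp only [List.map_append, List.map_cons, List.cons_append, List.append_assoc]
  refine List.Perm.append_left _ ?_
  exact List.perm_append_comm_assoc (T L R m :: r.map (T L R)) _ _

/-! ### Order -/

theorem decomp {a b : α} {l : List α} (ht : TriL L R a l b) : ∀ m ∈ l, ∃ A B : List α,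
    a :: (l ++ [b]) = A ++ m :: B ∧ L m ∈ A ∧ R m ∈ B := by
  induction ht with
  | nil a b => intro m hm; simp at hm
  | node a b m0 l r hL hR h1 h2 ih1 ih2 =>
    intro m hm
    rcases List.mem_append.1 hm with hm | hm
    · obtain ⟨A, B, e, hA, hB⟩ := ih1 m hm
      refine ⟨A, B ++ (r ++ [b]), ?_, hA, List.mem_append_left _ hB⟩
      have e2 : a :: (l ++ m0 :: r ++ [b]) = (a :: (l ++ [m0])) ++ (r ++ [b]) := by simp
      rw [e2, e]; simp
    rcases List.mem_cons.1 hm with rfl | hm
    · refine ⟨a :: l, r ++ [b], by simp, ?_, ?_⟩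
      · rw [hL]; exact List.mem_cons_self
      · rw [hR]; simp
    · obtain ⟨A, B, e, hA, hB⟩ := ih2 m hm
      refine ⟨a :: l ++ A, B, ?_, List.mem_append_right _ hA, hB⟩
      have e2 : a :: (l ++ m0 :: r ++ [b]) = (a :: l) ++ (m0 :: (r ++ [b])) := by simp
      rw [e2, e]; simp

theorem pos_lt {a b : α} {l : List α} (ht : TriL L R a l b) (hn : (a :: (l ++ [b])).Nodup)
    {m : α} (hm : m ∈ l) :
    (a :: (l ++ [b])).idxOf (L m) < (a :: (l ++ [b])).idxOf m ∧
    (a :: (l ++ [b])).idxOf m < (a :: (l ++ [b])).idxOf (R m) := by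
  obtain ⟨A, B, e, hA, hB⟩ := decomp ht m hm
  rw [e] at hn ⊢
  have hmA : m ∉ A := by
    intro h
    have := (List.nodup_append.1 hn).2.2 m h m List.mem_cons_self
    exact this rfl
  have hRA : R m ∉ A := by
    intro h
    have := (List.nodup_append.1 hn).2.2 (R m) h (R m) (List.mem_cons_of_mem _ hB)
    exact this rfl
  have hmR : R m ≠ m := by
    have := (List.nodup_cons.1 (List.nodup_append.1 hn).2.1).1
    rintro h; rw [h] at hB; exact this hB
  have e1 : (A ++ m :: B).idxOf m = A.length := by
    rw [List.idxOf_append_of_notMem hmA]; simp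
  have e2 : (A ++ m :: B).idxOf (L m) < A.length := by
    rw [List.idxOf_append_of_mem hA]; exact List.idxOf_lt_length_of_mem hA
  have e3 : A.length < (A ++ m :: B).idxOf (R m) := by
    rw [List.idxOf_append_of_notMem hRA, List.idxOf_cons_ne _ hmR.symm]; omega
  rw [e1]; exact ⟨e2, e3⟩

theorem L_mem {a b : α} {l : List α} (ht : TriL L R a l b) {m : α} (hm : m ∈ l) :
    L m ∈ a :: (l ++ [b]) := by
  obtain ⟨A, B, e, hA, hB⟩ := decomp ht m hm
  rw [e]; exact List.mem_append_left _ hA

theorem R_mem {a b : α} {l : List α} (ht : TriL L R a l b) {m : α} (hm : m ∈ l) :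
    R m ∈ a :: (l ++ [b]) := by
  obtain ⟨A, B, e, hA, hB⟩ := decomp ht m hm
  rw [e]; exact List.mem_append_right _ (List.mem_cons_of_mem _ hB)

/-! ### Cancellation and edges -/

theorem cancel {h a b : α} {l : List α} (ht : TriL L R a l b) (w : α → α → ℝ)
    (hw : ∀ a b, w a b = - w b a) :
    ((FF L R h a l b).map (fun f => w f.1 f.2.1 + w f.2.1 f.2.2 + w f.2.2 f.1)).sum =
      w b h + w h a + w a b := by
  induction ht with
  | nil a b => simp [FF, pairs, Cn]; ring
  | node a b m l r hL hR h1 h2 ih1 ih2 =>
    rw [(perm_FF_node.map _).sum_eq, List.map_append, List.sum_append, List.map_cons,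
      List.sum_cons, ih1, ih2]
    simp only [T, hL, hR]
    rw [hw m h, hw m a, hw b m]
    ring

theorem rev_o {h a b : α} {l : List α} (ht : TriL L R a l b) :
    ∀ e, (e = (a, b) ∨ e = (b, h) ∨ e = (h, a)) → ∃ g ∈ FF L R h a l b, e ∈ g.dE := by
  induction ht with
  | nil a b =>
    intro e he
    refine ⟨(h, a, b), mem_FF_nil.2 rfl, ?_⟩
    simp only [Face.dE, List.mem_cons, List.not_mem_nil, or_false]
    tauto
  | node a b m l r hL hR h1 h2 ih1 ih2 =>
    intro e he
    rcases he with he | he | he
    · refine ⟨T L R m, mem_FF_node.2 (Or.inr (Or.inl rfl)), ?_⟩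
      simp [Face.dE, T, hL, hR, he]
    · obtain ⟨g, hg, hge⟩ := ih2 e (Or.inr (Or.inl he))
      exact ⟨g, mem_FF_node.2 (Or.inr (Or.inr hg)), hge⟩
    · obtain ⟨g, hg, hge⟩ := ih1 e (Or.inr (Or.inr he))
      exact ⟨g, mem_FF_node.2 (Or.inl hg), hge⟩

theorem rev {h a b : α} {l : List α} (ht : TriL L R a l b) :
    ∀ f ∈ FF L R h a l b, ∀ e ∈ f.dE, (∃ g ∈ FF L R h a l b, e.swap ∈ g.dE) ∨
      (e = (a, b) ∨ e = (b, h) ∨ e = (h, a)) := by
  induction ht with
  | nil a b =>
    intro f hf e he
    rw [mem_FF_nil] at hf
    subst hf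
    simp only [Face.dE, List.mem_cons, List.not_mem_nil, or_false] at he
    tauto
  | node a b m l r hL hR h1 h2 ih1 ih2 =>
    have s1 : ∀ g ∈ FF L R h a l m, g ∈ FF L R h a (l ++ m :: r) b :=
      fun g hg => mem_FF_node.2 (Or.inl hg)
    have s2 : ∀ g ∈ FF L R h m r b, g ∈ FF L R h a (l ++ m :: r) b :=
      fun g hg => mem_FF_node.2 (Or.inr (Or.inr hg))
    have s3 : T L R m ∈ FF L R h a (l ++ m :: r) b := mem_FF_node.2 (Or.inr (Or.inl rfl))
    have d3 : (T L R m).dE = [(a, b), (b, m), (m, a)] := by simp [Face.dE, T, hL, hR]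
    intro f hf e he
    rcases mem_FF_node.1 hf with hf | rfl | hf
    · rcases ih1 f hf e he with ⟨g, hg, hge⟩ | rfl | rfl | rfl
      · exact Or.inl ⟨g, s1 g hg, hge⟩
      · exact Or.inl ⟨_, s3, by rw [d3]; simp⟩
      · obtain ⟨g, hg, hge⟩ := rev_o (h := h) h2 (h, m) (by simp)
        exact Or.inl ⟨g, s2 g hg, hge⟩
      · right; simp
    · rw [d3] at he
      simp only [List.mem_cons, List.not_mem_nil, or_false] at he
      rcases he with rfl | rfl | rfl
      · right; simp
      · obtain ⟨g, hg, hge⟩ := rev_o (h := h) h2 (m, b) (by simp)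
        exact Or.inl ⟨g, s2 g hg, hge⟩
      · obtain ⟨g, hg, hge⟩ := rev_o (h := h) h1 (a, m) (by simp)
        exact Or.inl ⟨g, s1 g hg, hge⟩
    · rcases ih2 f hf e he with ⟨g, hg, hge⟩ | rfl | rfl | rfl
      · exact Or.inl ⟨g, s2 g hg, hge⟩
      · exact Or.inl ⟨_, s3, by rw [d3]; simp⟩
      · right; simp
      · obtain ⟨g, hg, hge⟩ := rev_o (h := h) h1 (m, h) (by simp)
        exact Or.inl ⟨g, s1 g hg, hge⟩

/-! ### Dual connectivity -/

/-- adjacent faces of `F` -/
def DA (F : List (Face α)) (f g : Face α) : Prop := f ∈ F ∧ g ∈ F ∧ ∃ e ∈ f.dE, e.swap ∈ g.dE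

theorem DA.symm {F : List (Face α)} {f g : Face α} (h : DA F f g) : DA F g f := by
  obtain ⟨h1, h2, e, he, he'⟩ := h
  exact ⟨h2, h1, e.swap, he', by simpa using he⟩

theorem rtg_symm {β : Type*} {r : β → β → Prop} (hr : ∀ a b, r a b → r b a) {a b : β}
    (h : Relation.ReflTransGen r a b) : Relation.ReflTransGen r b a := by
  induction h with
  | refl => exact .refl
  | tail _ hbc ih => exact Relation.ReflTransGen.head (hr _ _ hbc) ih

theorem DA.mono {F G : List (Face α)} (hFG : ∀ f ∈ F, f ∈ G) {f g : Face α}
    (h : Relation.ReflTransGen (DA F) f g) : Relation.ReflTransGen (DA G) f g :=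
  Relation.ReflTransGen.mono (r := DA F) (p := DA G)
    (fun _ _ h => ⟨hFG _ h.1, hFG _ h.2.1, h.2.2⟩) _ _ h

theorem conn {h a b : α} {l : List α} (ht : TriL L R a l b) :
    ∀ f ∈ FF L R h a l b, ∀ g ∈ FF L R h a l b,
      Relation.ReflTransGen (DA (FF L R h a l b)) f g := by
  induction ht with
  | nil a b =>
    intro f hf g hg
    rw [mem_FF_nil] at hf hg
    subst hf; subst hg; exact .refl
  | node a b m l r hL hR h1 h2 ih1 ih2 =>
    have s1 : ∀ g ∈ FF L R h a l m, g ∈ FF L R h a (l ++ m :: r) b :=
      fun g hg => mem_FF_node.2 (Or.inl hg)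
    have s2 : ∀ g ∈ FF L R h m r b, g ∈ FF L R h a (l ++ m :: r) b :=
      fun g hg => mem_FF_node.2 (Or.inr (Or.inr hg))
    have s3 : T L R m ∈ FF L R h a (l ++ m :: r) b := mem_FF_node.2 (Or.inr (Or.inl rfl))
    have d3 : (T L R m).dE = [(a, b), (b, m), (m, a)] := by simp [Face.dE, T, hL, hR]
    have key : ∀ f ∈ FF L R h a (l ++ m :: r) b,
        Relation.ReflTransGen (DA (FF L R h a (l ++ m :: r) b)) f (T L R m) := by
      intro f hf
      rcases mem_FF_node.1 hf with hf | rfl | hf
      · obtain ⟨g, hg, hge⟩ := rev_o (h := h) h1 (a, m) (by simp)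
        refine (DA.mono s1 (ih1 f hf g hg)).tail ⟨s1 g hg, s3, (a, m), hge, ?_⟩
        rw [d3]; simp
      · exact .refl
      · obtain ⟨g, hg, hge⟩ := rev_o (h := h) h2 (m, b) (by simp)
        refine (DA.mono s2 (ih2 f hf g hg)).tail ⟨s2 g hg, s3, (m, b), hge, ?_⟩
        rw [d3]; simp
    intro f hf g hg
    exact (key f hf).trans (rtg_symm (fun _ _ h => h.symm) (key g hg))

/-! ### Paths -/

theorem chain_conn {β : Type*} {r : β → β → Prop} (hr : ∀ a b, r a b → r b a) :
    ∀ (l : List β), l.IsChain r → ∀ u ∈ l, ∀ v ∈ l, Relation.ReflTransGen r u v := by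
  intro l hl
  have key : ∀ (l : List β) (a : β), (a :: l).IsChain r → ∀ u ∈ a :: l,
      Relation.ReflTransGen r a u := by
    intro l
    induction l with
    | nil => intro a _ u hu; simp at hu; subst hu; exact .refl
    | cons b l ih =>
      intro a hc u hu
      rcases List.mem_cons.1 hu with rfl | hu
      · exact .refl
      · rw [List.isChain_cons_cons] at hc
        exact Relation.ReflTransGen.head hc.1 (ih b hc.2 u hu)
  cases l with
  | nil => intro u hu; simp at hu
  | cons a l =>
    intro u hu v hv
    exact (rtg_symm hr (key l a hl u hu)).trans (key l a hl v hv)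

theorem mem_pairs_getElem {l : List α} {e : α × α} :
    e ∈ pairs l ↔ ∃ i, ∃ h : i + 1 < l.length, e = (l[i], l[i + 1]) := by
  unfold pairs
  rw [List.mem_iff_getElem]
  constructor
  · rintro ⟨i, hi, rfl⟩
    have : i + 1 < l.length := by simp at hi; omega
    exact ⟨i, this, by simp⟩
  · rintro ⟨i, hi, rfl⟩
    exact ⟨i, by simp; omega, by simp⟩

theorem path_conn {β : Type*} {r : β → β → Prop} {Q : β → Prop} (hr : ∀ a b, r a b → r b a)
    {P : List β} (hc : P.IsChain r) (hQ : ∀ y ∈ P, Q y) : ∀ u ∈ P, ∀ v ∈ P,
    Relation.ReflTransGen (fun a b => Q a ∧ Q b ∧ r a b) u v := by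
  apply chain_conn
  · rintro a b ⟨h1, h2, h3⟩; exact ⟨h2, h1, hr _ _ h3⟩
  · rw [List.isChain_iff_getElem] at hc ⊢
    intro i hi
    exact ⟨hQ _ (List.getElem_mem _), hQ _ (List.getElem_mem _), hc i hi⟩

theorem trAdj_symm {o : Face α} {F : List (Face α)} (u v : α) (h : trAdj o F u v) :
    trAdj o F v u := by
  obtain ⟨h1, f, hf, h2, h3⟩ := h
  exact ⟨h1.symm, f, hf, h3, h2⟩

theorem mem_verts {f : Face α} {x : α} : x ∈ f.verts ↔ x = f.1 ∨ x = f.2.1 ∨ x = f.2.2 := by
  simp [Face.verts]

/-! ### The sphere -/

theorem sphere {h a b : α} {l : List α} (ht : TriL L R a l b)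
    (hn : (h :: a :: (l ++ [b])).Nodup) (hl : l ≠ []) :
    Sphere (h :: a :: (l ++ [b])).toFinset (b, h, a) (FF L R h a l b) := by
  obtain ⟨xs, hxs⟩ : ∃ xs, xs = a :: (l ++ [b]) := ⟨_, rfl⟩
  have hh : h ∉ xs := by rw [hxs]; exact (List.nodup_cons.1 hn).1
  have hnx : xs.Nodup := by rw [hxs]; exact (List.nodup_cons.1 hn).2
  have hlen : xs.length = l.length + 2 := by rw [hxs]; simp
  have hl0 : 0 < l.length := List.length_pos_iff.2 hl
  have hS : ∀ x, x ∈ (h :: a :: (l ++ [b])).toFinset ↔ x = h ∨ x ∈ xs := by
    intro x; rw [hxs]; simp; tauto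
  have hFT : ∀ m ∈ l, T L R m ∈ FF L R h a l b := fun m hm =>
    List.mem_append_left _ (List.mem_map_of_mem hm)
  have hFC : ∀ i (hi : i + 1 < xs.length), (h, xs[i], xs[i + 1]) ∈ FF L R h a l b := by
    intro i hi
    refine List.mem_append_right _ (List.mem_map.2 ⟨(xs[i], xs[i + 1]), ?_, rfl⟩)
    rw [← hxs]
    exact mem_pairs_getElem.2 ⟨i, hi, rfl⟩
  have hF : ∀ f ∈ FF L R h a l b, (∃ m ∈ l, f = T L R m) ∨
      ∃ i, ∃ hi : i + 1 < xs.length, f = (h, xs[i], xs[i + 1]) := by
    intro f hf
    rcases List.mem_append.1 hf with hf | hf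
    · obtain ⟨m, hm, rfl⟩ := List.mem_map.1 hf
      exact Or.inl ⟨m, hm, rfl⟩
    · obtain ⟨e, he, rfl⟩ := List.mem_map.1 hf
      rw [← hxs] at he
      obtain ⟨i, hi, rfl⟩ := mem_pairs_getElem.1 he
      exact Or.inr ⟨i, hi, rfl⟩
  have ha : xs[0]'(by omega) = a := by simp [hxs]
  have hb : xs[l.length + 1]'(by omega) = b := by simp [hxs]
  have hidx : ∀ i j (hi : i < xs.length) (hj : j < xs.length), xs[i] = xs[j] → i = j :=
    fun i j hi hj e => (List.Nodup.getElem_inj_iff hnx).1 e
  have hab : a ≠ b := by
    rw [← ha, ← hb]; intro e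
    have := hidx _ _ _ _ e; omega
  have hxh : ∀ x ∈ xs, x ≠ h := fun x hx e => hh (e ▸ hx)
  have hax : a ∈ xs := by rw [hxs]; simp
  have hbx : b ∈ xs := by rw [hxs]; simp
  have hlx : ∀ m ∈ l, m ∈ xs := fun m hm => by rw [hxs]; simp [hm]
  have hLx : ∀ m ∈ l, L m ∈ xs := fun m hm => by rw [hxs]; exact L_mem ht hm
  have hRx : ∀ m ∈ l, R m ∈ xs := fun m hm => by rw [hxs]; exact R_mem ht hm
  have hpos : ∀ m ∈ l, xs.idxOf (L m) < xs.idxOf m ∧ xs.idxOf m < xs.idxOf (R m) := by
    intro m hm
    have := pos_lt ht (by rw [← hxs]; exact hnx) hm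
    rw [← hxs] at this; exact this
  have hTh : ∀ m ∈ l, h ∉ (T L R m).verts := by
    intro m hm hc
    rw [mem_verts] at hc
    rcases hc with e | e | e
    · exact hh (e ▸ hLx m hm)
    · exact hh (e ▸ hRx m hm)
    · exact hh (e ▸ hlx m hm)
  have hml : ∀ j, 0 < j → ∀ hj : j < l.length + 1, xs[j]'(by omega) ∈ l := by
    intro j hj0 hj
    obtain ⟨k, rfl⟩ : ∃ k, j = k + 1 := ⟨j - 1, by omega⟩
    have : xs[k + 1]'(by omega) = l[k]'(by omega) := by
      simp only [hxs, List.getElem_cons_succ]
      rw [List.getElem_append_left]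
    rw [this]; exact List.getElem_mem _
  -- adjacency
  have adjS : ∀ i (hi : i + 1 < xs.length), trAdj (b, h, a) (FF L R h a l b) xs[i] xs[i + 1] := by
    intro i hi
    refine ⟨fun e => by have := hidx _ _ _ _ e; omega, _, List.mem_cons_of_mem _ (hFC i hi), ?_, ?_⟩
    · rw [mem_verts]; simp
    · rw [mem_verts]; simp
  have adjH : ∀ x ∈ xs, trAdj (b, h, a) (FF L R h a l b) x h := by
    intro x hx
    obtain ⟨i, hi, rfl⟩ := List.mem_iff_getElem.1 hx
    by_cases hi2 : i + 1 < xs.length
    · refine ⟨hxh _ hx, _, List.mem_cons_of_mem _ (hFC i hi2), ?_, ?_⟩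
      · rw [mem_verts]; simp
      · rw [mem_verts]; simp
    · obtain ⟨j, rfl⟩ : ∃ j, i = j + 1 := ⟨i - 1, by omega⟩
      refine ⟨hxh _ hx, _, List.mem_cons_of_mem _ (hFC j hi), ?_, ?_⟩
      · rw [mem_verts]; simp
      · rw [mem_verts]; simp
  have adjB : trAdj (b, h, a) (FF L R h a l b) b a := by
    refine ⟨hab.symm, _, List.mem_cons_self, ?_, ?_⟩
    · rw [mem_verts]; simp
    · rw [mem_verts]; simp
  constructor
  · -- sub
    intro f hf x hx
    rw [hS]
    rcases List.mem_cons.1 hf with rfl | hf
    · rw [mem_verts] at hx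
      rcases hx with rfl | rfl | rfl
      · exact Or.inr hbx
      · exact Or.inl rfl
      · exact Or.inr hax
    rcases hF f hf with ⟨m, hm, rfl⟩ | ⟨i, hi, rfl⟩
    · rw [mem_verts] at hx
      rcases hx with rfl | rfl | rfl
      · exact Or.inr (hLx m hm)
      · exact Or.inr (hRx m hm)
      · exact Or.inr (hlx _ hm)
    · rw [mem_verts] at hx
      rcases hx with rfl | rfl | rfl
      · exact Or.inl rfl
      · exact Or.inr (List.getElem_mem _)
      · exact Or.inr (List.getElem_mem _)
  · -- ne
    intro f hf
    rcases List.mem_cons.1 hf with rfl | hf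
    · exact ⟨hxh b hbx, (hxh a hax).symm, hab⟩
    rcases hF f hf with ⟨m, hm, rfl⟩ | ⟨i, hi, rfl⟩
    · have := hpos m hm
      refine ⟨fun e => ?_, fun e => ?_, fun e => ?_⟩
      · change L m = R m at e; rw [e] at this; omega
      · change R m = m at e; rw [e] at this; omega
      · change m = L m at e; rw [← e] at this; omega
    · refine ⟨(hxh _ (List.getElem_mem _)).symm, fun e => ?_, hxh _ (List.getElem_mem _)⟩
      have := hidx _ _ _ _ e; omega
  · -- cover
    intro v hv
    rcases (hS v).1 hv with rfl | hv
    · exact ⟨_, hFC 0 (by omega), by rw [mem_verts]; simp⟩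
    · obtain ⟨_, f, hf, h1, h2⟩ := adjH v hv
      obtain ⟨i, hi, rfl⟩ := List.mem_iff_getElem.1 hv
      by_cases hi2 : i + 1 < xs.length
      · exact ⟨_, hFC i hi2, by rw [mem_verts]; simp⟩
      · obtain ⟨j, rfl⟩ : ∃ j, i = j + 1 := ⟨i - 1, by omega⟩
        exact ⟨_, hFC j hi, by rw [mem_verts]; simp⟩
  · intro w hw
    exact cancel ht w hw
  · -- rev
    intro f hf e he
    rcases rev ht f hf e he with hg | hg | hg | hg
    · exact Or.inl hg
    all_goals right; rw [hg]; simp [Face.dE]
  · intro e he
    apply rev_o ht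
    simp only [Face.dE, List.mem_cons, List.not_mem_nil, or_false] at he
    tauto
  · -- distinct
    rw [List.pairwise_cons]
    constructor
    · intro f hf
      rcases hF f hf with ⟨m, hm, rfl⟩ | ⟨i, hi, rfl⟩
      · intro e
        apply hTh m hm
        rw [← e, mem_verts]; simp
      · intro e
        have h1 : a ∈ Face.verts (h, xs[i], xs[i + 1]) := by rw [← e, mem_verts]; simp
        have h2 : b ∈ Face.verts (h, xs[i], xs[i + 1]) := by rw [← e, mem_verts]; simp
        rw [mem_verts] at h1 h2
        rcases h1 with h1 | h1 | h1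
        · exact hxh a hax h1
        · rw [← ha] at h1
          have i0 := hidx _ _ _ _ h1
          rcases h2 with h2 | h2 | h2
          · exact hxh b hbx h2
          · rw [← hb] at h2
            have := hidx _ _ _ _ h2; omega
          · rw [← hb] at h2
            have := hidx _ _ _ _ h2; omega
        · rw [← ha] at h1
          have i0 := hidx _ _ _ _ h1
          omega
    · unfold FF
      rw [List.pairwise_append]
      refine ⟨?_, ?_, ?_⟩
      · rw [List.pairwise_map]
        have hnl : l.Nodup := by
          have h1 := hnx; rw [hxs] at h1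
          exact (List.nodup_append.1 (List.nodup_cons.1 h1).2).1
        refine List.Pairwise.imp_of_mem ?_ hnl
        intro m m' hm hm' hne e
        have p1 := hpos m hm
        have p2 := hpos m' hm'
        have inj : ∀ x ∈ xs, ∀ y ∈ xs, xs.idxOf x = xs.idxOf y → x = y := by
          intro x hx y hy e
          exact (List.idxOf_inj hx).1 e
        have k1 : m' ∈ (T L R m).verts := by rw [e, mem_verts]; simp [T]
        have k2 : m ∈ (T L R m').verts := by rw [← e, mem_verts]; simp [T]
        have k3 : L m' ∈ (T L R m).verts := by rw [e, mem_verts]; simp [T]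
        have k4 : R m' ∈ (T L R m).verts := by rw [e, mem_verts]; simp [T]
        rw [mem_verts] at k1 k2 k3 k4
        simp only [T] at k1 k2 k3 k4
        rcases k1 with k1 | k1 | k1
        · have e1 := congrArg xs.idxOf k1
          rcases k3 with k3 | k3 | k3 <;> have e3 := congrArg xs.idxOf k3 <;> omega
        · have e1 := congrArg xs.idxOf k1
          rcases k4 with k4 | k4 | k4 <;> have e3 := congrArg xs.idxOf k4 <;> omega
        · exact hne k1.symm
      · rw [List.pairwise_map, ← hxs, List.pairwise_iff_getElem]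
        intro i j hi hj hij e
        have hi' : i + 1 < xs.length := by simp [pairs] at hi; omega
        have hj' : j + 1 < xs.length := by simp [pairs] at hj; omega
        have ei : (pairs xs)[i] = (xs[i], xs[i + 1]) := by simp [pairs]
        have ej : (pairs xs)[j] = (xs[j], xs[j + 1]) := by simp [pairs]
        rw [ei, ej] at e
        have k1 : xs[i] ∈ (Cn h (xs[j], xs[j + 1])).verts := by
          rw [← e, mem_verts]; simp [Cn]
        rw [mem_verts] at k1
        rcases k1 with k1 | k1 | k1
        · exact hxh _ (List.getElem_mem _) k1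
        · have := hidx _ _ _ _ k1; omega
        · have := hidx _ _ _ _ k1; omega
      · intro f hf g hg e
        obtain ⟨m, hm, rfl⟩ := List.mem_map.1 hf
        obtain ⟨p, hp, rfl⟩ := List.mem_map.1 hg
        apply hTh m hm
        rw [e, mem_verts]; simp [Cn]
  · -- nonsep
    intro f hf u hu v hv huf hvf
    rw [hS] at hu hv
    -- the case of a face without `h`
    by_cases hhf : h ∈ f.verts
    · -- a path avoiding the face
      have hu' : u ∈ xs := by
        rcases hu with rfl | hu
        · exact absurd hhf huf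
        · exact hu
      have hv' : v ∈ xs := by
        rcases hv with rfl | hv
        · exact absurd hhf hvf
        · exact hv
      obtain ⟨P, hP1, hP2, hP3⟩ : ∃ P : List α,
          P.IsChain (trAdj (b, h, a) (FF L R h a l b)) ∧ (∀ y ∈ P, y ∉ f.verts) ∧
          ∀ y ∈ xs, y ∉ f.verts → y ∈ P := by
        rcases List.mem_cons.1 hf with rfl | hf
        · refine ⟨l, ?_, ?_, ?_⟩
          · rw [List.isChain_iff_getElem]
            intro i hi
            have := adjS (i + 1) (by omega)
            have e1 : xs[i + 1]'(by omega) = l[i] := by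
              simp only [hxs, List.getElem_cons_succ]
              rw [List.getElem_append_left]
            have e2 : xs[i + 1 + 1]'(by omega) = l[i + 1] := by
              simp only [hxs, List.getElem_cons_succ]
              rw [List.getElem_append_left]
            rw [e1, e2] at this; exact this
          · intro y hy hc
            rw [mem_verts] at hc
            have h1 := hnx; rw [hxs] at h1
            rcases hc with e | e | e
            · simp only at e; subst e
              exact (List.nodup_append.1 (List.nodup_cons.1 h1).2).2.2 y hy y (by simp) rfl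
            · exact hxh y (hlx y hy) e
            · simp only at e; subst e
              exact (List.nodup_cons.1 h1).1 (by simp [hy])
          · intro y hy hyf
            rw [mem_verts] at hyf
            push Not at hyf
            rw [hxs] at hy
            simp only [List.mem_cons, List.mem_append, List.not_mem_nil, or_false] at hy
            rcases hy with e | e | e
            · exact absurd e hyf.2.2
            · exact e
            · exact absurd e hyf.1
        rcases hF f hf with ⟨m, hm, rfl⟩ | ⟨i, hi, rfl⟩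
        · exact absurd hhf (hTh m hm)
        · refine ⟨xs.drop (i + 2) ++ xs.take i, ?_, ?_, ?_⟩
          · rw [List.isChain_append]
            have hch : xs.IsChain (trAdj (b, h, a) (FF L R h a l b)) := by
              rw [List.isChain_iff_getElem]
              intro j hj; exact adjS j hj
            refine ⟨hch.drop _, hch.take _, ?_⟩
            intro x hx y hy
            have hx' : x = b := by
              have h1 : xs.drop (i + 2) ≠ [] := by
                intro h0; rw [h0] at hx; simp at hx
              have h2 : x = (xs.drop (i + 2)).getLast h1 := by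
                rw [List.getLast?_eq_some_getLast h1] at hx
                simpa using hx.symm
              rw [h2, List.getLast_drop]
              simp [hxs]
            have hy' : y = a := by
              cases i with
              | zero => simp at hy
              | succ i =>
                rw [hxs] at hy
                simpa using hy.symm
            rw [hx', hy']; exact adjB
          · intro y hy hc
            rw [mem_verts] at hc
            rcases List.mem_append.1 hy with hy | hy
            · obtain ⟨j, hj, rfl⟩ := List.mem_iff_getElem.1 hy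
              rw [List.getElem_drop] at hc
              rcases hc with e | e | e
              · exact hxh _ (List.getElem_mem _) e
              · have := hidx _ _ _ _ e; omega
              · have := hidx _ _ _ _ e; omega
            · obtain ⟨j, hj, rfl⟩ := List.mem_iff_getElem.1 hy
              rw [List.getElem_take] at hc
              have hji : j < i := by simp at hj; omega
              rcases hc with e | e | e
              · exact hxh _ (List.getElem_mem _) e
              · have := hidx _ _ _ _ e; omega
              · have := hidx _ _ _ _ e; omega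
          · intro y hy hyf
            rw [mem_verts] at hyf
            push Not at hyf
            obtain ⟨j, hj, rfl⟩ := List.mem_iff_getElem.1 hy
            have j1 : j ≠ i := fun e => hyf.2.1 (by simp [e])
            have j2 : j ≠ i + 1 := fun e => hyf.2.2 (by simp [e])
            rw [List.mem_append]
            rcases Nat.lt_or_ge j i with hji | hji
            · right
              rw [List.mem_iff_getElem]
              exact ⟨j, by simp; omega, by simp⟩
            · left
              rw [List.mem_iff_getElem]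
              refine ⟨j - (i + 2), by simp; omega, ?_⟩
              rw [List.getElem_drop]
              congr 1; omega
      have := path_conn (Q := fun y => y ∉ f.verts) (trAdj_symm (o := (b, h, a))
        (F := FF L R h a l b)) hP1 hP2 u (hP3 u hu' huf) v (hP3 v hv' hvf)
      exact this
    · -- through `h`
      have key : ∀ x, (x = h ∨ x ∈ xs) → x ∉ f.verts → Relation.ReflTransGen
          (fun a' b' => a' ∉ f.verts ∧ b' ∉ f.verts ∧ trAdj (b, h, a) (FF L R h a l b) a' b')
          x h := by
        intro x hx hxf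
        rcases hx with rfl | hx
        · exact .refl
        · exact Relation.ReflTransGen.single ⟨hxf, hhf, adjH x hx⟩
      exact (key u hu huf).trans (rtg_symm
        (fun _ _ h => ⟨h.2.1, h.1, trAdj_symm _ _ h.2.2⟩) (key v hv hvf))
  · intro f hf g hg
    exact conn ht f hf g hg
  · refine ⟨xs[1]'(by omega), (hS _).2 (Or.inr (List.getElem_mem _)), ?_⟩
    intro hc
    rw [mem_verts] at hc
    rcases hc with e | e | e
    · change xs[1]'_ = b at e
      rw [← hb] at e
      have := hidx _ _ _ _ e; omega
    · exact hxh _ (List.getElem_mem _) e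
    · change xs[1]'_ = a at e
      rw [← ha] at e
      have := hidx _ _ _ _ e; omega

/-- module C1: cones over triangulated polygons -/
theorem cone_sphere {L R : α → α} {h a b : α} {l : List α} (ht : TriL L R a l b)
    (hn : (h :: a :: (l ++ [b])).Nodup) (hl : l ≠ []) :
    Sphere (h :: a :: (l ++ [b])).toFinset (b, h, a)
      (l.map (fun m => (L m, R m, m)) ++
        (pairs (a :: l ++ [b])).map (fun e => (h, e.1, e.2))) :=
  sphere ht hn hl

end Pool.Agent.helper50.C1
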