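import Pool.Agent.helper56.SGE.Vx
import Pool.Agent.helper50.SGE.C1

/-!
# Vertex numbers, adjacency, and transfer to the instance (module C6)
-/

set_option autoImplicit false
set_option linter.unusedSectionVars false

namespace Pool.Agent.helper50.C6

open Pool.Agent.helper56.SGE Vx Pool.Agent.helper50.C1

/-! ### Transfer along an injection -/

section transfer
variable {V α ι : Type*}

theorem cross_iff (e : V → α) (p : V → Pt) (q : α → Pt)
    (hq : ∀ v, q (e v) = p v) (u v u' v' : V) :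
    Cross q (e u) (e v) (e u') (e v') → (Function.Injective e) → Cross p u v u' v' := by
  rintro ⟨z, h1, h2, h3⟩ he
  rw [hq, hq] at h1 h2
  refine ⟨z, h1, h2, ?_⟩
  rintro ⟨w, hw1, hw2, hw3⟩
  apply h3
  refine ⟨e w, ?_, ?_, by rw [hq]; exact hw3⟩
  · rcases hw1 with rfl | rfl <;> simp
  · rcases hw2 with rfl | rfl <;> simp

theorem cross_iff' (e : V → α) (p : V → Pt) (q : α → Pt)
    (hq : ∀ v, q (e v) = p v) (u v u' v' : V) :
    Cross p u v u' v' → (Function.Injective e) → Cross q (e u) (e v) (e u') (e v') := by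
  rintro ⟨z, h1, h2, h3⟩ he
  refine ⟨z, by rw [hq, hq]; exact h1, by rw [hq, hq]; exact h2, ?_⟩
  rintro ⟨w, hw1, hw2, hw3⟩
  apply h3
  rcases hw1 with rfl | rfl
  · refine ⟨u, Or.inl rfl, ?_, by rw [← hq]; exact hw3⟩
    rcases hw2 with hw2 | hw2
    · exact Or.inl (he hw2)
    · exact Or.inr (he hw2)
  · refine ⟨v, Or.inr rfl, ?_, by rw [← hq]; exact hw3⟩
    rcases hw2 with hw2 | hw2
    · exact Or.inl (he hw2)
    · exact Or.inr (he hw2)

theorem transfer (G : ι → SimpleGraph V) (E : ι → α → α → Prop) (S : Finset α) (e : V → α)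
    (he : Function.Injective e) (hS : ∀ a, a ∈ S ↔ ∃ v, e v = a)
    (hG : ∀ k u v, (G k).Adj u v ↔ E k (e u) (e v)) (p : V → Pt) (q : α → Pt)
    (hq : ∀ v, q (e v) = p v) : IsSGE G p ↔ IsSGEOn S E q := by
  have hs : ∀ u v u' v' : V, s(u, v) ≠ s(u', v') ↔ s(e u, e v) ≠ s(e u', e v') := by
    intro u v u' v'
    rw [not_iff_not]
    simp only [Sym2.eq_iff, he.eq_iff]
  constructor
  · intro h
    refine ⟨?_, ?_, ?_⟩
    · intro a ha b hb hab
      obtain ⟨u, rfl⟩ := (hS a).1 (by simpa using ha)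
      obtain ⟨v, rfl⟩ := (hS b).1 (by simpa using hb)
      rw [hq, hq] at hab
      rw [h.drawing.inj hab]
    · intro i a ha b hb c hc hab hca hcb
      obtain ⟨u, rfl⟩ := (hS a).1 ha
      obtain ⟨v, rfl⟩ := (hS b).1 hb
      obtain ⟨w, rfl⟩ := (hS c).1 hc
      rw [hq, hq, hq]
      apply h.drawing.clear
      · rw [SimpleGraph.iSup_adj]; exact ⟨i, (hG i u v).2 hab⟩
      · exact fun hh => hca (by rw [hh])
      · exact fun hh => hcb (by rw [hh])
    · intro i a ha b hb a' ha' b' hb' hab hab' hne hc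
      obtain ⟨u, rfl⟩ := (hS a).1 ha
      obtain ⟨v, rfl⟩ := (hS b).1 hb
      obtain ⟨u', rfl⟩ := (hS a').1 ha'
      obtain ⟨v', rfl⟩ := (hS b').1 hb'
      exact h.noCross i ((hG i u v).2 hab) ((hG i u' v').2 hab') ((hs _ _ _ _).2 hne)
        (cross_iff e p q hq _ _ _ _ hc he)
  · intro h
    have hm : ∀ v, e v ∈ S := fun v => (hS _).2 ⟨v, rfl⟩
    refine ⟨⟨?_, ?_⟩, ?_⟩
    · intro u v huv
      apply he
      exact h.inj (by simpa using hm u) (by simpa using hm v) (by rw [hq, hq]; exact huv)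
    · intro u v w huv hwu hwv
      rw [SimpleGraph.iSup_adj] at huv
      obtain ⟨i, hi⟩ := huv
      have := h.clear i _ (hm u) _ (hm v) _ (hm w) ((hG i u v).1 hi) (fun hh => hwu (he hh))
        (fun hh => hwv (he hh))
      rw [hq, hq, hq] at this; exact this
    · intro i u v u' v' huv huv' hne hc
      exact h.noCross i _ (hm u) _ (hm v) _ (hm u') _ (hm v') ((hG i u v).1 huv)
        ((hG i u' v').1 huv') ((hs _ _ _ _).1 hne) (cross_iff' e p q hq _ _ _ _ hc he)

end transfer

/-! ### Numbers -/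

theorem dec_code {S : Slp} {v : Vx} (hv : S.Valid v) : Slp.dec (Slp.code v) = v := by
  have key : ∀ j c, 1 ≤ j → c < 14 → Slp.dec (16 + 14 * (j - 1) + c) = Slp.decB j c := by
    intro j c hj hc
    rw [show 16 + 14 * (j - 1) + c = (14 * (j - 1) + c) + 16 by omega]
    show Slp.decB ((14 * (j - 1) + c) / 14 + 1) ((14 * (j - 1) + c) % 14) = _
    congr 1 <;> omega
  cases v with
  | p1 j => exact key j 0 hv.1 (by norm_num)
  | q2 j => exact key j 1 hv.1 (by norm_num)
  | X j => exact key j 2 hv.1 (by norm_num)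
  | q3 j => exact key j 3 hv.1 (by norm_num)
  | r4 j => exact key j 4 hv.1 (by norm_num)
  | Y j => exact key j 5 hv.1 (by norm_num)
  | a5 j => exact key j 6 hv.1 (by norm_num)
  | a3 j => exact key j 7 hv.1 (by norm_num)
  | wr w =>
    have h2 : 2 ≤ w := hv.1
    rcases Nat.mod_two_eq_zero_or_one w with h | h
    · have := key (w / 2) 8 (by omega) (by norm_num)
      show Slp.dec (16 + 14 * (w / 2 - 1) + 8 + 3 * (w % 2)) = _
      rw [h]; rw [show 16 + 14 * (w / 2 - 1) + 8 + 3 * 0 = 16 + 14 * (w / 2 - 1) + 8 by omega, this]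
      show wr (2 * (w / 2)) = wr w
      congr 1; omega
    · have := key (w / 2) 11 (by omega) (by norm_num)
      show Slp.dec (16 + 14 * (w / 2 - 1) + 8 + 3 * (w % 2)) = _
      rw [h]; rw [show 16 + 14 * (w / 2 - 1) + 8 + 3 * 1 = 16 + 14 * (w / 2 - 1) + 11 by omega, this]
      show wr (2 * (w / 2) + 1) = wr w
      congr 1; omega
  | wm w =>
    have h2 : 2 ≤ w := hv.1
    rcases Nat.mod_two_eq_zero_or_one w with h | h
    · have := key (w / 2) 9 (by omega) (by norm_num)
      show Slp.dec (16 + 14 * (w / 2 - 1) + 9 + 3 * (w % 2)) = _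
      rw [h]; rw [show 16 + 14 * (w / 2 - 1) + 9 + 3 * 0 = 16 + 14 * (w / 2 - 1) + 9 by omega, this]
      show wm (2 * (w / 2)) = wm w
      congr 1; omega
    · have := key (w / 2) 12 (by omega) (by norm_num)
      show Slp.dec (16 + 14 * (w / 2 - 1) + 9 + 3 * (w % 2)) = _
      rw [h]; rw [show 16 + 14 * (w / 2 - 1) + 9 + 3 * 1 = 16 + 14 * (w / 2 - 1) + 12 by omega, this]
      show wm (2 * (w / 2) + 1) = wm w
      congr 1; omega
  | wl w =>
    have h2 : 2 ≤ w := hv.1
    rcases Nat.mod_two_eq_zero_or_one w with h | h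
    · have := key (w / 2) 10 (by omega) (by norm_num)
      show Slp.dec (16 + 14 * (w / 2 - 1) + 10 + 3 * (w % 2)) = _
      rw [h]; rw [show 16 + 14 * (w / 2 - 1) + 10 + 3 * 0 = 16 + 14 * (w / 2 - 1) + 10 by omega, this]
      show wl (2 * (w / 2)) = wl w
      congr 1; omega
    · have := key (w / 2) 13 (by omega) (by norm_num)
      show Slp.dec (16 + 14 * (w / 2 - 1) + 10 + 3 * (w % 2)) = _
      rw [h]; rw [show 16 + 14 * (w / 2 - 1) + 10 + 3 * 1 = 16 + 14 * (w / 2 - 1) + 13 by omega, this]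
      show wl (2 * (w / 2) + 1) = wl w
      congr 1; omega
  | _ => rfl

theorem code_lt {S : Slp} {v : Vx} (hv : S.Valid v) : Slp.code v < S.nvx := by
  unfold Slp.nvx
  cases v <;> simp only [Slp.code, Slp.Valid] at hv ⊢ <;> omega

theorem valid_dec {S : Slp} {i : ℕ} (hi : i < S.nvx) : S.Valid (Slp.dec i) ∧
    Slp.code (Slp.dec i) = i := by
  unfold Slp.nvx at hi
  by_cases h16 : i < 16
  · interval_cases i <;> exact ⟨trivial, rfl⟩
  · obtain ⟨k, rfl⟩ : ∃ k, i = k + 16 := ⟨i - 16, by omega⟩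
    have e : Slp.dec (k + 16) = Slp.decB (k / 14 + 1) (k % 14) := rfl
    rw [e]
    obtain ⟨c, hc⟩ : ∃ c, c = k % 14 := ⟨_, rfl⟩
    obtain ⟨j, hj⟩ : ∃ j, j = k / 14 + 1 := ⟨_, rfl⟩
    have hc14 : c < 14 := by omega
    have hk : k = 14 * (j - 1) + c := by omega
    rw [← hc, ← hj, hk]
    have hj1 : 1 ≤ j ∧ j ≤ S.N := by omega
    clear hc hj e h16 hi hk
    interval_cases c <;> simp only [Slp.decB, Slp.Valid, Slp.code] <;> omega

/-! ### Edges of a triangulated polygon -/

section edges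
variable {α : Type*} [DecidableEq α] {L R : α → α}

/-- the edges of the triangulation of a polygon -/
def Ed (L R : α → α) (a b : α) (l : List α) (u v : α) : Prop :=
  (u = a ∧ v = b) ∨ (u = b ∧ v = a) ∨
    ∃ m ∈ l, (u = m ∧ (v = L m ∨ v = R m)) ∨ (v = m ∧ (u = L m ∨ u = R m))

theorem Ed.symm {a b : α} {l : List α} {u v : α} (h : Ed L R a b l u v) : Ed L R a b l v u := by
  rcases h with h | h | ⟨m, hm, h⟩
  · exact Or.inr (Or.inl ⟨h.2, h.1⟩)
  · exact Or.inl ⟨h.2, h.1⟩
  · refine Or.inr (Or.inr ⟨m, hm, ?_⟩); tauto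

theorem Ed.left {a b m : α} {l r : List α} (hL : L m = a) {u v : α}
    (h : Ed L R a m l u v) : Ed L R a b (l ++ m :: r) u v := by
  have hm : m ∈ l ++ m :: r := by simp
  rcases h with ⟨h1, h2⟩ | ⟨h1, h2⟩ | ⟨m', hm', h⟩
  · exact Or.inr (Or.inr ⟨m, hm, Or.inr ⟨h2, Or.inl (by rw [hL]; exact h1)⟩⟩)
  · exact Or.inr (Or.inr ⟨m, hm, Or.inl ⟨h1, Or.inl (by rw [hL]; exact h2)⟩⟩)
  · exact Or.inr (Or.inr ⟨m', List.mem_append_left _ hm', h⟩)

theorem Ed.right {a b m : α} {l r : List α} (hR : R m = b) {u v : α}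
    (h : Ed L R m b r u v) : Ed L R a b (l ++ m :: r) u v := by
  have hm : m ∈ l ++ m :: r := by simp
  rcases h with ⟨h1, h2⟩ | ⟨h1, h2⟩ | ⟨m', hm', h⟩
  · exact Or.inr (Or.inr ⟨m, hm, Or.inl ⟨h1, Or.inr (by rw [hR]; exact h2)⟩⟩)
  · exact Or.inr (Or.inr ⟨m, hm, Or.inr ⟨h2, Or.inr (by rw [hR]; exact h1)⟩⟩)
  · exact Or.inr (Or.inr ⟨m', List.mem_append_right _ (List.mem_cons_of_mem _ hm'), h⟩)

theorem ed_LR {a b : α} {l : List α} (ht : TriL L R a l b) :
    ∀ m ∈ l, Ed L R a b l (L m) (R m) := by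
  induction ht with
  | nil a b => intro m hm; simp at hm
  | node a b m0 l r hL hR h1 h2 ih1 ih2 =>
    intro m hm
    rcases List.mem_append.1 hm with hm | hm
    · exact (ih1 m hm).left hL
    rcases List.mem_cons.1 hm with rfl | hm
    · exact Or.inl ⟨hL, hR⟩
    · exact (ih2 m hm).right hR

theorem ed_pairs {a b : α} {l : List α} (ht : TriL L R a l b) :
    ∀ e ∈ pairs (a :: (l ++ [b])), Ed L R a b l e.1 e.2 := by
  induction ht with
  | nil a b =>
    intro e he
    simp only [pairs, List.nil_append, List.tail_cons, List.zip_cons_cons, List.zip_nil_right,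
      List.mem_cons, List.not_mem_nil, or_false] at he
    subst he
    exact Or.inl ⟨rfl, rfl⟩
  | node a b m0 l r hL hR h1 h2 ih1 ih2 =>
    intro e he
    have e2 : a :: (l ++ m0 :: r ++ [b]) = (a :: l) ++ m0 :: (r ++ [b]) := by simp
    rw [e2, pairs_split, List.mem_append] at he
    rcases he with he | he
    · exact (ih1 e he).left hL
    · exact (ih2 e he).right hR

/-- every vertex of a path with at least two vertices is in a pair -/
theorem exists_pair {l : List α} (hl : 2 ≤ l.length) {x : α} (hx : x ∈ l) :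
    ∃ e ∈ pairs l, x = e.1 ∨ x = e.2 := by
  obtain ⟨i, hi, rfl⟩ := List.mem_iff_getElem.1 hx
  by_cases hi2 : i + 1 < l.length
  · exact ⟨_, mem_pairs_getElem.2 ⟨i, hi2, rfl⟩, Or.inl rfl⟩
  · obtain ⟨j, rfl⟩ : ∃ j, i = j + 1 := ⟨i - 1, by omega⟩
    exact ⟨_, mem_pairs_getElem.2 ⟨j, hi, rfl⟩, Or.inr rfl⟩

end edges

/-! ### Adjacency -/

section adj
variable {S : Slp}

theorem adj1 (hp : ∀ v, v ∈ S.path1 ↔ S.Valid v ∧ v ≠ O ∧ v ≠ H ∧ v ≠ V)
    (ht : TriL S.L1 S.R1 V S.path1 O) {u v : Vx} (hu : S.Valid u) (hv : S.Valid v)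
    (hne : u ≠ v) :
    trAdj oF S.faces1 u v ↔ (v ∈ S.nb1 u ∨ u ∈ S.nb1 v) := by
  have ed : ∀ x y, Ed S.L1 S.R1 V O S.path1 x y → (y ∈ S.nb1 x ∨ x ∈ S.nb1 y) := by
    rintro x y (⟨rfl, rfl⟩ | ⟨rfl, rfl⟩ | ⟨m, hm, h⟩)
    · simp [Slp.nb1, Slp.L1]
    · simp [Slp.nb1, Slp.L1]
    · rcases h with ⟨rfl, rfl | rfl⟩ | ⟨rfl, rfl | rfl⟩ <;> simp [Slp.nb1]
  constructor
  · rintro ⟨_, f, hf, h1, h2⟩
    rw [mem_verts] at h1 h2
    rcases List.mem_cons.1 hf with rfl | hf
    · simp only [oF] at h1 h2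
      rcases h1 with rfl | rfl | rfl <;> rcases h2 with rfl | rfl | rfl <;>
        first | exact absurd rfl hne | simp [Slp.nb1, Slp.L1, Slp.R1]
    unfold Slp.faces1 at hf
    rcases List.mem_append.1 hf with hf | hf
    · obtain ⟨m, hm, rfl⟩ := List.mem_map.1 hf
      have hLR := ed _ _ (ed_LR ht m hm)
      simp only at h1 h2
      rcases h1 with h1 | h1 | h1 <;> rcases h2 with h2 | h2 | h2
      · exact absurd (h1.trans h2.symm) hne
      · rw [h1, h2]; exact hLR
      · rw [h1, h2]; simp [Slp.nb1]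
      · rw [h1, h2]; exact hLR.symm
      · exact absurd (h1.trans h2.symm) hne
      · rw [h1, h2]; simp [Slp.nb1]
      · rw [h1, h2]; simp [Slp.nb1]
      · rw [h1, h2]; simp [Slp.nb1]
      · exact absurd (h1.trans h2.symm) hne
    · obtain ⟨e, he, rfl⟩ := List.mem_map.1 hf
      have hE := ed _ _ (ed_pairs ht e he)
      simp only at h1 h2
      rcases h1 with h1 | h1 | h1 <;> rcases h2 with h2 | h2 | h2
      · exact absurd (h1.trans h2.symm) hne
      · rw [h1]; simp [Slp.nb1]
      · rw [h1]; simp [Slp.nb1]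
      · rw [h2]; simp [Slp.nb1]
      · exact absurd (h1.trans h2.symm) hne
      · rw [h1, h2]; exact hE
      · rw [h2]; simp [Slp.nb1]
      · rw [h1, h2]; exact hE.symm
      · exact absurd (h1.trans h2.symm) hne
  · have key : ∀ x y, S.Valid x → x ≠ y → y ∈ S.nb1 x → trAdj oF S.faces1 x y := by
      intro x y hx hxy hy
      by_cases hx3 : x = O ∨ x = H ∨ x = V
      · refine ⟨hxy, oF, List.mem_cons_self, ?_, ?_⟩
        · rw [mem_verts]; exact hx3
        · rw [mem_verts]
          rcases hx3 with rfl | rfl | rfl <;> simp [Slp.nb1, Slp.L1, Slp.R1] at hy <;>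
            simp only [oF] <;> tauto
      · push Not at hx3
        have hxp : x ∈ S.path1 := (hp x).2 ⟨hx, hx3⟩
        simp only [Slp.nb1, List.mem_cons, List.not_mem_nil, or_false] at hy
        rcases hy with rfl | rfl | rfl
        · obtain ⟨e, he, hxe⟩ := exists_pair (l := V :: S.path1 ++ [O]) (by simp)
            (x := x) (by simp [hxp])
          refine ⟨hxy, (H, e.1, e.2), ?_, ?_, ?_⟩
          · exact List.mem_cons_of_mem _ (List.mem_append_right _ (List.mem_map_of_mem he))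
          · rw [mem_verts]; exact Or.inr hxe
          · rw [mem_verts]; simp
        · refine ⟨hxy, (S.L1 x, S.R1 x, x), ?_, ?_, ?_⟩
          · exact List.mem_cons_of_mem _ (List.mem_append_left _ (List.mem_map.2 ⟨x, hxp, rfl⟩))
          · rw [mem_verts]; simp
          · rw [mem_verts]; simp
        · refine ⟨hxy, (S.L1 x, S.R1 x, x), ?_, ?_, ?_⟩
          · exact List.mem_cons_of_mem _ (List.mem_append_left _ (List.mem_map.2 ⟨x, hxp, rfl⟩))
          · rw [mem_verts]; simp
          · rw [mem_verts]; simp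
    rintro (h | h)
    · exact key u v hu hne h
    · exact trAdj_symm _ _ (key v u hv hne.symm h)

theorem nb2_def {v : Vx} (h1 : v ≠ J) (h2 : v ≠ n) : S.nb2 v = [V, S.L2 v, S.R2 v] := by
  cases v <;> first | rfl | exact absurd rfl h1 | exact absurd rfl h2

theorem adj2 (hp : ∀ v, v ∈ S.path2 ↔ S.Valid v ∧ v ≠ O ∧ v ≠ H ∧ v ≠ V ∧ v ≠ J ∧ v ≠ n)
    (ht : TriL S.L2 S.R2 H S.path2 O) {u v : Vx} (hu : S.Valid u) (hv : S.Valid v)
    (hne : u ≠ v) :
    trAdj oF S.faces2 u v ↔ (v ∈ S.nb2 u ∨ u ∈ S.nb2 v) := by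
  have hpn : ∀ m ∈ S.path2, S.nb2 m = [V, S.L2 m, S.R2 m] := fun m hm =>
    nb2_def ((hp m).1 hm).2.2.2.2.1 ((hp m).1 hm).2.2.2.2.2
  have ed : ∀ x y, Ed S.L2 S.R2 H O S.path2 x y → (y ∈ S.nb2 x ∨ x ∈ S.nb2 y) := by
    rintro x y (⟨rfl, rfl⟩ | ⟨rfl, rfl⟩ | ⟨m, hm, h⟩)
    · simp [Slp.nb2, Slp.L2]
    · simp [Slp.nb2, Slp.L2]
    · have := hpn m hm
      rcases h with ⟨rfl, rfl | rfl⟩ | ⟨rfl, rfl | rfl⟩ <;> rw [this] <;> simp
  constructor
  · rintro ⟨_, f, hf, h1, h2⟩
    rw [mem_verts] at h1 h2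
    rcases List.mem_cons.1 hf with rfl | hf
    · simp only [oF] at h1 h2
      rcases h1 with rfl | rfl | rfl <;> rcases h2 with rfl | rfl | rfl <;>
        first | exact absurd rfl hne | simp [Slp.nb2, Slp.L2, Slp.R2]
    unfold Slp.faces2 at hf
    rcases List.mem_append.1 hf with hf | hf
    rcases List.mem_append.1 hf with hf | hf
    · obtain ⟨m, hm, rfl⟩ := List.mem_map.1 hf
      have hm := (List.mem_filter.1 hm).1
      have hLR := ed _ _ (ed_LR ht m hm)
      have hn := hpn m hm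
      simp only at h1 h2
      rcases h1 with h1 | h1 | h1 <;> rcases h2 with h2 | h2 | h2
      · exact absurd (h1.trans h2.symm) hne
      · rw [h1, h2, hn]; simp
      · rw [h1, h2]; exact hLR
      · rw [h1, h2, hn]; simp
      · exact absurd (h1.trans h2.symm) hne
      · rw [h1, h2, hn]; simp
      · rw [h1, h2]; exact hLR.symm
      · rw [h1, h2, hn]; simp
      · exact absurd (h1.trans h2.symm) hne
    · simp only [Slp.five, List.mem_cons, List.not_mem_nil, or_false] at hf
      rcases hf with rfl | rfl | rfl | rfl | rfl <;> simp only at h1 h2 <;>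
        rcases h1 with rfl | rfl | rfl <;> rcases h2 with rfl | rfl | rfl <;>
        first | exact absurd rfl hne | simp [Slp.nb2, Slp.L2, Slp.R2]
    · obtain ⟨e, he, rfl⟩ := List.mem_map.1 hf
      have hE := ed _ _ (ed_pairs ht e he)
      have hV : ∀ x, x = e.1 ∨ x = e.2 → x ≠ V → V ∈ S.nb2 x := by
        intro x hx hxV
        have hmem : x ∈ H :: (S.path2 ++ [O]) := by
          have := List.of_mem_zip (show (e.1, e.2) ∈ (H :: (S.path2 ++ [O])).zip
            (H :: (S.path2 ++ [O])).tail from he)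
          rcases hx with rfl | rfl
          · exact this.1
          · exact List.mem_of_mem_tail this.2
        simp only [List.mem_cons, List.mem_append, List.not_mem_nil, or_false] at hmem
        rcases hmem with rfl | hmem | rfl
        · simp [Slp.nb2]
        · rw [hpn x hmem]; simp
        · simp [Slp.nb2]
      simp only at h1 h2
      rcases h1 with h1 | h1 | h1 <;> rcases h2 with h2 | h2 | h2
      · exact absurd (h1.trans h2.symm) hne
      · right; rw [h1]; exact hV v (Or.inr h2) (fun hh => hne (h1.trans hh.symm))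
      · right; rw [h1]; exact hV v (Or.inl h2) (fun hh => hne (h1.trans hh.symm))
      · left; rw [h2]; exact hV u (Or.inr h1) (fun hh => hne (hh.trans h2.symm))
      · exact absurd (h1.trans h2.symm) hne
      · rw [h1, h2]; exact hE.symm
      · left; rw [h2]; exact hV u (Or.inl h1) (fun hh => hne (hh.trans h2.symm))
      · rw [h1, h2]; exact hE
      · exact absurd (h1.trans h2.symm) hne
  · have five_mem : ∀ f ∈ Slp.five, f ∈ oF :: S.faces2 := by
      intro f hf
      exact List.mem_cons_of_mem _ (List.mem_append_left _ (List.mem_append_right _ hf))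
    have key : ∀ x y, S.Valid x → x ≠ y → y ∈ S.nb2 x → trAdj oF S.faces2 x y := by
      intro x y hx hxy hy
      by_cases hx3 : x = O ∨ x = H ∨ x = V
      · refine ⟨hxy, oF, List.mem_cons_self, ?_, ?_⟩
        · rw [mem_verts]; exact hx3
        · rw [mem_verts]
          rcases hx3 with rfl | rfl | rfl <;> simp [Slp.nb2, Slp.L2, Slp.R2] at hy <;>
            simp only [oF] <;> tauto
      by_cases hxJ : x = J
      · subst hxJ
        simp only [Slp.nb2, List.mem_cons, List.not_mem_nil, or_false] at hy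
        rcases hy with rfl | rfl | rfl
        · exact ⟨hxy, (J, n, M), five_mem _ (by simp [Slp.five]), by simp [Face.verts],
            by simp [Face.verts]⟩
        · exact ⟨hxy, (A1, J, M), five_mem _ (by simp [Slp.five]), by simp [Face.verts],
            by simp [Face.verts]⟩
        · exact ⟨hxy, (A1, J, M), five_mem _ (by simp [Slp.five]), by simp [Face.verts],
            by simp [Face.verts]⟩
      by_cases hxn : x = n
      · subst hxn
        simp only [Slp.nb2, List.mem_cons, List.not_mem_nil, or_false] at hy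
        rcases hy with rfl | rfl | rfl
        · exact ⟨hxy, (n, B1, M), five_mem _ (by simp [Slp.five]), by simp [Face.verts],
            by simp [Face.verts]⟩
        · exact ⟨hxy, (A1, n, J), five_mem _ (by simp [Slp.five]), by simp [Face.verts],
            by simp [Face.verts]⟩
        · exact ⟨hxy, (n, B1, M), five_mem _ (by simp [Slp.five]), by simp [Face.verts],
            by simp [Face.verts]⟩
      push Not at hx3
      have hxp : x ∈ S.path2 := (hp x).2 ⟨hx, hx3.1, hx3.2.1, hx3.2.2, hxJ, hxn⟩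
      rw [nb2_def hxJ hxn] at hy
      simp only [List.mem_cons, List.not_mem_nil, or_false] at hy
      rcases hy with rfl | hy
      · obtain ⟨e, he, hxe⟩ := exists_pair (l := H :: S.path2 ++ [O]) (by simp)
          (x := x) (by simp [hxp])
        refine ⟨hxy, (V, e.2, e.1), ?_, ?_, ?_⟩
        · exact List.mem_cons_of_mem _ (List.mem_append_right _ (List.mem_map.2 ⟨e, he, rfl⟩))
        · rw [mem_verts]; exact Or.inr hxe.symm
        · rw [mem_verts]; simp
      by_cases hA : x = A1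
      · subst hA
        rcases hy with rfl | rfl
        · exact ⟨hxy, (A1, J, M), five_mem _ (by simp [Slp.five]), by simp [Face.verts],
            by simp [Face.verts, Slp.L2]⟩
        · exact ⟨hxy, (A1, B1, n), five_mem _ (by simp [Slp.five]), by simp [Face.verts],
            by simp [Face.verts, Slp.R2]⟩
      · refine ⟨hxy, (S.L2 x, x, S.R2 x), ?_, ?_, ?_⟩
        · refine List.mem_cons_of_mem _ (List.mem_append_left _ (List.mem_append_left _
            (List.mem_map.2 ⟨x, ?_, rfl⟩)))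
          exact List.mem_filter.2 ⟨hxp, by simpa using hA⟩
        · rw [mem_verts]; simp
        · rw [mem_verts]; simp only; tauto
    rintro (h | h)
    · exact key u v hu hne h
    · exact trAdj_symm _ _ (key v u hv hne.symm h)

end adj

/-! ### The instance -/

theorem inst_length (S : Slp) : S.inst.length = S.nvx := by
  simp [Slp.inst]

theorem inst_square (S : Slp) : Square S.inst := by
  intro r hr
  rw [inst_length]
  simp only [Slp.inst, List.mem_map, List.mem_range] at hr
  obtain ⟨i, _, rfl⟩ := hr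
  simp

theorem entry_inst (S : Slp) {i j : ℕ} (hi : i < S.nvx) (hj : j < S.nvx) :
    entry S.inst i j = (decide (j ∈ (S.nb1 (Slp.dec i)).map Slp.code),
      decide (j ∈ (S.nb2 (Slp.dec i)).map Slp.code)) := by
  unfold entry Slp.inst
  simp only [List.getD_eq_getElem?_getD, List.getElem?_map, List.getElem?_range hi,
    List.getElem?_range hj, Option.map_some, Option.getD_some]

theorem valid_nb1 {S : Slp} (hp : ∀ v, v ∈ S.path1 ↔ S.Valid v ∧ v ≠ O ∧ v ≠ H ∧ v ≠ V)
    (ht : TriL S.L1 S.R1 V S.path1 O) {u : Vx} (hu : S.Valid u) : ∀ x ∈ S.nb1 u, S.Valid x := by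
  have hm : ∀ x ∈ V :: (S.path1 ++ [O]), S.Valid x := by
    intro x hx
    simp only [List.mem_cons, List.mem_append, List.not_mem_nil, or_false] at hx
    rcases hx with rfl | hx | rfl
    · trivial
    · exact ((hp x).1 hx).1
    · trivial
  intro x hx
  simp only [Slp.nb1, List.mem_cons, List.not_mem_nil, or_false] at hx
  by_cases hu3 : u = O ∨ u = H ∨ u = V
  · rcases hu3 with rfl | rfl | rfl <;> rcases hx with rfl | rfl | rfl <;>
      simp [Slp.L1, Slp.R1, Slp.Valid]
  · push Not at hu3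
    have hup : u ∈ S.path1 := (hp u).2 ⟨hu, hu3⟩
    rcases hx with rfl | rfl | rfl
    · trivial
    · exact hm _ (L_mem ht hup)
    · exact hm _ (R_mem ht hup)

theorem valid_nb2 {S : Slp}
    (hp : ∀ v, v ∈ S.path2 ↔ S.Valid v ∧ v ≠ O ∧ v ≠ H ∧ v ≠ V ∧ v ≠ J ∧ v ≠ n)
    (ht : TriL S.L2 S.R2 H S.path2 O) {u : Vx} (hu : S.Valid u) : ∀ x ∈ S.nb2 u, S.Valid x := by
  have hm : ∀ x ∈ H :: (S.path2 ++ [O]), S.Valid x := by
    intro x hx
    simp only [List.mem_cons, List.mem_append, List.not_mem_nil, or_false] at hx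
    rcases hx with rfl | hx | rfl
    · trivial
    · exact ((hp x).1 hx).1
    · trivial
  intro x hx
  by_cases hu5 : u = O ∨ u = H ∨ u = V ∨ u = J ∨ u = n
  · rcases hu5 with rfl | rfl | rfl | rfl | rfl <;>
      simp only [Slp.nb2, List.mem_cons, List.not_mem_nil, or_false] at hx <;>
      rcases hx with rfl | rfl | rfl <;> simp [Slp.L2, Slp.R2, Slp.Valid]
  · push Not at hu5
    have hup : u ∈ S.path2 := (hp u).2 ⟨hu, hu5⟩
    rw [nb2_def hu5.2.2.2.1 hu5.2.2.2.2] at hx
    simp only [List.mem_cons, List.not_mem_nil, or_false] at hx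
    rcases hx with rfl | rfl | rfl
    · trivial
    · exact hm _ (L_mem ht hup)
    · exact hm _ (R_mem ht hup)

theorem mem_map_code {S : Slp} {l : List Vx} (hl : ∀ x ∈ l, S.Valid x) {j : ℕ} (hj : j < S.nvx) :
    j ∈ l.map Slp.code ↔ Slp.dec j ∈ l := by
  rw [List.mem_map]
  constructor
  · rintro ⟨x, hx, rfl⟩
    rw [dec_code (hl x hx)]; exact hx
  · intro h
    exact ⟨_, h, (valid_dec hj).2⟩

/-- **Module C6** (the hypotheses are the modules C2 and C3). -/
theorem instance_iff (S : Slp)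
    (hp1 : ∀ v, v ∈ S.path1 ↔ S.Valid v ∧ v ≠ O ∧ v ≠ H ∧ v ≠ V)
    (hp2 : ∀ v, v ∈ S.path2 ↔ S.Valid v ∧ v ≠ O ∧ v ≠ H ∧ v ≠ V ∧ v ≠ J ∧ v ≠ n)
    (ht1 : TriL S.L1 S.R1 V S.path1 O) (ht2 : TriL S.L2 S.R2 H S.path2 O) :
    Square S.inst ∧
    ((∃ p, IsSGE (graphOf S.inst) p) ↔
      ∃ p, IsSGEOn S.vs (trE oF S.faces1 S.faces2) p) := by
  refine ⟨inst_square S, ?_⟩
  have hlt : ∀ i : Fin S.inst.length, i.1 < S.nvx := fun i =>
    lt_of_lt_of_eq i.2 (inst_length S)
  let e : Fin S.inst.length → Vx := fun i => Slp.dec i.1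
  have he : Function.Injective e := by
    intro i j hij
    have h1 := (valid_dec (hlt i)).2
    have h2 := (valid_dec (hlt j)).2
    have hij' : Slp.dec i.1 = Slp.dec j.1 := hij
    rw [hij', h2] at h1
    exact Fin.ext h1.symm
  have hS : ∀ a, a ∈ S.vs ↔ ∃ v, e v = a := by
    intro a
    have h1 : a ∈ S.vs ↔ S.Valid a := by
      unfold Slp.vs
      simp only [List.mem_toFinset, List.mem_cons, hp1]
      constructor
      · rintro (rfl | rfl | rfl | h)
        · trivial
        · trivial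
        · trivial
        · exact h.1
      · intro h
        by_cases a1 : a = O
        · exact Or.inl a1
        by_cases a2 : a = H
        · exact Or.inr (Or.inl a2)
        by_cases a3 : a = V
        · exact Or.inr (Or.inr (Or.inl a3))
        · exact Or.inr (Or.inr (Or.inr ⟨h, a1, a2, a3⟩))
    rw [h1]
    constructor
    · intro h
      exact ⟨⟨Slp.code a, by rw [inst_length]; exact code_lt h⟩, dec_code h⟩
    · rintro ⟨i, rfl⟩
      exact (valid_dec (hlt i)).1
  have hG : ∀ (k : Fin 2) u v, (graphOf S.inst k).Adj u v ↔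
      trE oF S.faces1 S.faces2 k (e u) (e v) := by
    intro k u v
    have hu := (valid_dec (hlt u)).1
    have hv := (valid_dec (hlt v)).1
    have hadj : (graphOf S.inst k).Adj u v ↔ u ≠ v ∧ (bit k (entry S.inst u v) = true ∨
      bit k (entry S.inst v u) = true) := Iff.rfl
    rw [hadj, entry_inst S (hlt u) (hlt v), entry_inst S (hlt v) (hlt u)]
    by_cases huv : u = v
    · subst huv
      constructor
      · rintro ⟨h, _⟩; exact absurd rfl h
      · rintro ⟨h, _⟩; exact absurd rfl h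
    have hne : e u ≠ e v := fun h => huv (he h)
    have hne' : Slp.dec u.1 ≠ Slp.dec v.1 := hne
    fin_cases k
    · show u ≠ v ∧ (decide _ = true ∨ decide _ = true) ↔ trAdj oF S.faces1 (Slp.dec u.1)
        (Slp.dec v.1)
      rw [adj1 hp1 ht1 hu hv hne', decide_eq_true_iff, decide_eq_true_iff,
        mem_map_code (valid_nb1 hp1 ht1 hu) (hlt v), mem_map_code (valid_nb1 hp1 ht1 hv) (hlt u)]
      simp [huv]
    · show u ≠ v ∧ (decide _ = true ∨ decide _ = true) ↔ trAdj oF S.faces2 (Slp.dec u.1)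
        (Slp.dec v.1)
      rw [adj2 hp2 ht2 hu hv hne', decide_eq_true_iff, decide_eq_true_iff,
        mem_map_code (valid_nb2 hp2 ht2 hu) (hlt v), mem_map_code (valid_nb2 hp2 ht2 hv) (hlt u)]
      simp [huv]
  constructor
  · rintro ⟨p, hp⟩
    refine ⟨Function.extend e p (fun _ => 0), ?_⟩
    exact (transfer (graphOf S.inst) (trE oF S.faces1 S.faces2) S.vs e he hS hG p _
      (fun v => he.extend_apply _ _ _)).1 hp
  · rintro ⟨q, hq⟩
    exact ⟨fun i => q (e i), (transfer (graphOf S.inst) (trE oF S.faces1 S.faces2) S.vs e he hS hG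
      _ q (fun v => rfl)).2 hq⟩

end Pool.Agent.helper50.C6
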