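import Pool.Agent.helper56.SGE.Arith

/-!
# The program of a quadratic system is correct (module M3)
-/

set_option autoImplicit false

namespace Pool.Agent.helper50.M3

open Pool.Agent.helper56.SGE

/-! ### Executing a program -/

/-- run of a program with inputs `V` -/
noncomputable def run (P : Pap) (V : ℕ → ℝ) (n : ℕ) : ℝ :=
  match P.op n with
  | .one => 1
  | .var => V n
  | .add => if _h : P.a n < n ∧ P.b n < n then run P V (P.a n) + run P V (P.b n) else 0
  | .mul => if _h : P.a n < n ∧ P.b n < n then run P V (P.a n) * run P V (P.b n) else 0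
termination_by n
decreasing_by all_goals omega

theorem run_isVal (P : Pap) (h : P.WF) (V : ℕ → ℝ)
    (hV : ∀ k < P.K, P.op k = .var → 1 < V k) : P.IsVal (run P V) := by
  intro k hk
  have hw := h.1 k hk
  cases ho : P.op k with
  | one => simp only; rw [run, ho]
  | var => simp only; rw [run, ho]; exact hV k hk ho
  | add =>
    have hab := hw (Or.inl ho)
    simp only; rw [run, ho]; simp only [hab, and_self, dite_true]
  | mul =>
    have hab := hw (Or.inr ho)
    simp only; rw [run, ho]; simp only [hab, and_self, dite_true]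

theorem run_var (P : Pap) (V : ℕ → ℝ) (n : ℕ) (h : P.op n = .var) : run P V n = V n := by
  rw [run, h]

section
variable {P : Pap} {x : ℕ → ℝ} (hx : P.IsVal x)
include hx

theorem val_one {k : ℕ} (hk : k < P.K) (ho : P.op k = .one) : x k = 1 := by
  have := hx k hk
  rw [ho] at this; exact this

theorem val_var {k : ℕ} (hk : k < P.K) (ho : P.op k = .var) : 1 < x k := by
  have := hx k hk
  rw [ho] at this; exact this

theorem val_add {k a b : ℕ} (hk : k < P.K) (ho : P.op k = .add) (ha : P.a k = a) (hb : P.b k = b) :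
    x k = x a + x b := by
  have := hx k hk
  rw [ho] at this; simp only at this; rw [this, ha, hb]

theorem val_mul {k a b : ℕ} (hk : k < P.K) (ho : P.op k = .mul) (ha : P.a k = a) (hb : P.b k = b) :
    x k = x a * x b := by
  have := hx k hk
  rw [ho] at this; simp only at this; rw [this, ha, hb]

end

/-! ### The regions of the program -/

section regions
variable (Q : QSys)

theorem K_eq : Q.toPap.K = 2 + 2 * Q.nv + 17 * Q.m + 2 * Q.nv + Q.tau + Q.kap + 4 := by
  show Q.b5 + 4 = _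
  unfold QSys.b5 QSys.b4 QSys.b3 QSys.b2 QSys.b1
  omega

theorem tau_pos : 0 < Q.tau := by unfold QSys.tau; omega
theorem kap_pos : 0 < Q.kap := by unfold QSys.kap; omega

theorem op_zero : Q.toPap.op 0 = .one := by simp [QSys.toPap]
theorem op_one : Q.toPap.op 1 = .add := by simp [QSys.toPap]

theorem a_lt {n : ℕ} (h : n < Q.b1) : Q.toPap.a n = 0 := by simp [QSys.toPap, h]
theorem b_lt {n : ℕ} (h : n < Q.b1) : Q.toPap.b n = 0 := by simp [QSys.toPap, h]

theorem op_var {i : ℕ} (h : i < 2 * Q.nv) : Q.toPap.op (2 + i) = .var := by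
  have h1 : ¬ (2 + i = 0) := by omega
  have h2 : ¬ (2 + i = 1) := by omega
  have h3 : 2 + i < Q.b1 := by unfold QSys.b1; omega
  simp only [QSys.toPap, h1, h2, h3, if_true, if_false]

variable {k c : ℕ}

theorem op_eqn (hk : k < Q.m) (hc : c < 17) :
    Q.toPap.op (Q.b1 + 17 * k + c) = if QSys.eqOp c then .mul else .add := by
  have h1 : ¬ (Q.b1 + 17 * k + c = 0) := by unfold QSys.b1; omega
  have h2 : ¬ (Q.b1 + 17 * k + c = 1) := by unfold QSys.b1; omega
  have h3 : ¬ (Q.b1 + 17 * k + c < Q.b1) := by omega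
  have h4 : Q.b1 + 17 * k + c < Q.b2 := by unfold QSys.b2; omega
  have h5 : (Q.b1 + 17 * k + c - Q.b1) % 17 = c := by omega
  simp only [QSys.toPap, h1, h2, h3, h4, h5, if_true, if_false]

theorem a_eqn (hk : k < Q.m) (hc : c < 17) :
    Q.toPap.a (Q.b1 + 17 * k + c) = Q.eqA k c := by
  have h3 : ¬ (Q.b1 + 17 * k + c < Q.b1) := by omega
  have h4 : Q.b1 + 17 * k + c < Q.b2 := by unfold QSys.b2; omega
  have h5 : (Q.b1 + 17 * k + c - Q.b1) % 17 = c := by omega
  have h6 : (Q.b1 + 17 * k + c - Q.b1) / 17 = k := by omega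
  simp only [QSys.toPap, h3, h4, h5, h6, if_true, if_false]

theorem b_eqn (hk : k < Q.m) (hc : c < 17) :
    Q.toPap.b (Q.b1 + 17 * k + c) = Q.eqB k c := by
  have h3 : ¬ (Q.b1 + 17 * k + c < Q.b1) := by omega
  have h4 : Q.b1 + 17 * k + c < Q.b2 := by unfold QSys.b2; omega
  have h5 : (Q.b1 + 17 * k + c - Q.b1) % 17 = c := by omega
  have h6 : (Q.b1 + 17 * k + c - Q.b1) / 17 = k := by omega
  simp only [QSys.toPap, h3, h4, h5, h6, if_true, if_false]

variable {i : ℕ}

theorem r2 (hi : i < 2 * Q.nv) : Q.toPap.op (Q.b2 + i) = .add ∧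
    Q.toPap.a (Q.b2 + i) = (if i = 0 then 0 else Q.b2 + i - 1) ∧
    Q.toPap.b (Q.b2 + i) = 2 + i := by
  have h1 : ¬ (Q.b2 + i = 0) := by unfold QSys.b2 QSys.b1; omega
  have h2 : ¬ (Q.b2 + i = 1) := by unfold QSys.b2 QSys.b1; omega
  have h3 : ¬ (Q.b2 + i < Q.b1) := by unfold QSys.b2; omega
  have h4 : ¬ (Q.b2 + i < Q.b2) := by omega
  have h5 : Q.b2 + i < Q.b3 := by unfold QSys.b3; omega
  refine ⟨?_, ?_, ?_⟩
  · simp only [QSys.toPap, h1, h2, h3, h4, h5, if_true, if_false]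
  · simp only [QSys.toPap, h3, h4, h5, if_true, if_false]
    by_cases h : i = 0
    · simp [h]
    · have : ¬ (Q.b2 + i = Q.b2) := by omega
      simp only [h, this, if_false]
  · simp only [QSys.toPap, h3, h4, h5, if_true, if_false]; omega

theorem r3 (hi : i < Q.tau) : Q.toPap.op (Q.b3 + i) = .mul ∧
    Q.toPap.a (Q.b3 + i) = (if i = 0 then 1 else Q.b3 + i - 1) ∧
    Q.toPap.b (Q.b3 + i) = (if i = 0 then 1 else Q.b3 + i - 1) := by
  have h1 : ¬ (Q.b3 + i = 0) := by unfold QSys.b3 QSys.b2 QSys.b1; omega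
  have h2 : ¬ (Q.b3 + i = 1) := by unfold QSys.b3 QSys.b2 QSys.b1; omega
  have h3 : ¬ (Q.b3 + i < Q.b1) := by unfold QSys.b3 QSys.b2; omega
  have h4 : ¬ (Q.b3 + i < Q.b2) := by unfold QSys.b3; omega
  have h5 : ¬ (Q.b3 + i < Q.b3) := by omega
  have h6 : Q.b3 + i < Q.b4 := by unfold QSys.b4; omega
  have h7 : Q.b3 + i < Q.b5 := by unfold QSys.b5 QSys.b4; omega
  refine ⟨?_, ?_, ?_⟩
  · simp only [QSys.toPap, h1, h2, h3, h4, h5, h7, if_true, if_false]
  · simp only [QSys.toPap, h3, h4, h5, h6, if_true, if_false]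
    by_cases h : i = 0
    · simp [h]
    · have : ¬ (Q.b3 + i = Q.b3) := by omega
      simp only [h, this, if_false]
  · simp only [QSys.toPap, h3, h4, h5, h6, if_true, if_false]
    by_cases h : i = 0
    · simp [h]
    · have : ¬ (Q.b3 + i = Q.b3) := by omega
      simp only [h, this, if_false]

theorem r4 (hi : i < Q.kap) : Q.toPap.op (Q.b4 + i) = .mul ∧
    Q.toPap.a (Q.b4 + i) = (if i = 0 then 1 else Q.b4 + i - 1) ∧
    Q.toPap.b (Q.b4 + i) = (if i = 0 then 1 else Q.b4 + i - 1) := by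
  have h1 : ¬ (Q.b4 + i = 0) := by unfold QSys.b4 QSys.b3 QSys.b2 QSys.b1; omega
  have h2 : ¬ (Q.b4 + i = 1) := by unfold QSys.b4 QSys.b3 QSys.b2 QSys.b1; omega
  have h3 : ¬ (Q.b4 + i < Q.b1) := by unfold QSys.b4 QSys.b3 QSys.b2; omega
  have h4 : ¬ (Q.b4 + i < Q.b2) := by unfold QSys.b4 QSys.b3; omega
  have h5 : ¬ (Q.b4 + i < Q.b3) := by unfold QSys.b4; omega
  have h6 : ¬ (Q.b4 + i < Q.b4) := by omega
  have h7 : Q.b4 + i < Q.b5 := by unfold QSys.b5; omega
  refine ⟨?_, ?_, ?_⟩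
  · simp only [QSys.toPap, h1, h2, h3, h4, h5, h7, if_true, if_false]
  · simp only [QSys.toPap, h3, h4, h5, h6, h7, if_true, if_false]
    by_cases h : i = 0
    · simp [h]
    · have : ¬ (Q.b4 + i = Q.b4) := by omega
      simp only [h, this, if_false]
  · simp only [QSys.toPap, h3, h4, h5, h6, h7, if_true, if_false]
    by_cases h : i = 0
    · simp [h]
    · have : ¬ (Q.b4 + i = Q.b4) := by omega
      simp only [h, this, if_false]

theorem r5 (hi : i < 4) : Q.toPap.op (Q.b5 + i) = (if i = 0 ∨ i = 2 then .mul else .add) ∧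
    Q.toPap.a (Q.b5 + i) = (if i = 0 then Q.b5 - 1 else if i = 1 then Q.b5 else
      if i = 2 then Q.b5 - 1 else Q.b5 + 2) ∧
    Q.toPap.b (Q.b5 + i) = (if i = 0 then Q.accA Q.m else if i = 1 then
      (if Q.nv = 0 then 0 else Q.b3 - 1) else if i = 2 then Q.accB Q.m else Q.b4 - 1) := by
  have h1 : ¬ (Q.b5 + i = 0) := by unfold QSys.b5 QSys.b4 QSys.b3 QSys.b2 QSys.b1; omega
  have h2 : ¬ (Q.b5 + i = 1) := by unfold QSys.b5 QSys.b4 QSys.b3 QSys.b2 QSys.b1; omega
  have h3 : ¬ (Q.b5 + i < Q.b1) := by unfold QSys.b5 QSys.b4 QSys.b3 QSys.b2; omega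
  have h4 : ¬ (Q.b5 + i < Q.b2) := by unfold QSys.b5 QSys.b4 QSys.b3; omega
  have h5 : ¬ (Q.b5 + i < Q.b3) := by unfold QSys.b5 QSys.b4; omega
  have h6 : ¬ (Q.b5 + i < Q.b4) := by unfold QSys.b5; omega
  have h7 : ¬ (Q.b5 + i < Q.b5) := by omega
  interval_cases i
  · refine ⟨?_, ?_, ?_⟩
    · simp only [QSys.toPap, h1, h2, h3, h4, h5, h7, if_false]; simp
    · simp only [QSys.toPap, h3, h4, h5, h6, h7, if_false]; simp
    · simp only [QSys.toPap, h3, h4, h5, h6, h7, if_false]; simp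
  · refine ⟨?_, ?_, ?_⟩
    · simp only [QSys.toPap, h1, h2, h3, h4, h5, h7, if_false]; simp
    · simp only [QSys.toPap, h3, h4, h5, h6, h7, if_false]; simp
    · simp only [QSys.toPap, h3, h4, h5, h6, h7, if_false]; simp
  · refine ⟨?_, ?_, ?_⟩
    · simp only [QSys.toPap, h1, h2, h3, h4, h5, h7, if_false]; simp
    · simp only [QSys.toPap, h3, h4, h5, h6, h7, if_false]; simp
    · simp only [QSys.toPap, h3, h4, h5, h6, h7, if_false]; simp
  · refine ⟨?_, ?_, ?_⟩
    · simp only [QSys.toPap, h1, h2, h3, h4, h5, h7, if_false]; simp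
    · simp only [QSys.toPap, h3, h4, h5, h6, h7, if_false]; simp
    · simp only [QSys.toPap, h3, h4, h5, h6, h7, if_false]; simp

end regions

/-! ### Well-formedness -/

theorem posRef_lt (Q : QSys) {r : ℕ} (h : r < Q.nv + 2) : posRef r < Q.b1 := by
  unfold posRef QSys.b1; split_ifs <;> omega

theorem negRef_lt (Q : QSys) {r : ℕ} (h : r < Q.nv + 2) : negRef r < Q.b1 := by
  unfold negRef QSys.b1; split_ifs <;> omega

theorem accA_lt (Q : QSys) (k : ℕ) : Q.accA k < Q.b1 + 17 * k := by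
  unfold QSys.accA QSys.b1; split_ifs <;> omega

theorem accB_lt (Q : QSys) (k : ℕ) : Q.accB k < Q.b1 + 17 * k := by
  unfold QSys.accB QSys.b1; split_ifs <;> omega

theorem toPap_WF (Q : QSys) (h : Q.WF) : Q.toPap.WF := by
  have hb1 : Q.b1 = 2 + 2 * Q.nv := rfl
  have hb2 : Q.b2 = Q.b1 + 17 * Q.m := rfl
  have hb3 : Q.b3 = Q.b2 + 2 * Q.nv := rfl
  have hb4 : Q.b4 = Q.b3 + Q.tau := rfl
  have hb5 : Q.b5 = Q.b4 + Q.kap := rfl
  have ht := tau_pos Q
  have hkp := kap_pos Q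
  refine ⟨?_, ?_, ?_⟩
  · intro n hn ho
    have hn' : n < Q.b5 + 4 := hn
    rcases lt_or_ge n Q.b1 with h1 | h1
    · rcases Nat.eq_zero_or_pos n with h0 | h0
      · subst h0; rw [op_zero] at ho; simp at ho
      · rw [a_lt Q h1, b_lt Q h1]; exact ⟨h0, h0⟩
    rcases lt_or_ge n Q.b2 with h2 | h2
    · obtain ⟨k, c, hk, hc, rfl⟩ : ∃ k c, k < Q.m ∧ c < 17 ∧ n = Q.b1 + 17 * k + c :=
        ⟨(n - Q.b1) / 17, (n - Q.b1) % 17, by omega, by omega, by omega⟩
      rw [a_eqn Q hk hc, b_eqn Q hk hc]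
      have p0 := posRef_lt Q (h k hk 0 (by norm_num))
      have p1 := posRef_lt Q (h k hk 1 (by norm_num))
      have p2 := posRef_lt Q (h k hk 2 (by norm_num))
      have p3 := posRef_lt Q (h k hk 3 (by norm_num))
      have n0 := negRef_lt Q (h k hk 0 (by norm_num))
      have n1 := negRef_lt Q (h k hk 1 (by norm_num))
      have n2 := negRef_lt Q (h k hk 2 (by norm_num))
      have n3 := negRef_lt Q (h k hk 3 (by norm_num))
      have aA := accA_lt Q k
      have aB := accB_lt Q k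
      interval_cases c <;> simp only [QSys.eqA, QSys.eqB] <;> constructor <;> omega
    rcases lt_or_ge n Q.b3 with h3 | h3
    · obtain ⟨i, hi, rfl⟩ : ∃ i, i < 2 * Q.nv ∧ n = Q.b2 + i := ⟨n - Q.b2, by omega, by omega⟩
      rw [(r2 Q hi).2.1, (r2 Q hi).2.2]
      constructor
      · split_ifs <;> omega
      · omega
    rcases lt_or_ge n Q.b4 with h4 | h4
    · obtain ⟨i, hi, rfl⟩ : ∃ i, i < Q.tau ∧ n = Q.b3 + i := ⟨n - Q.b3, by omega, by omega⟩
      rw [(r3 Q hi).2.1, (r3 Q hi).2.2]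
      constructor <;> split_ifs <;> omega
    rcases lt_or_ge n Q.b5 with h5 | h5
    · obtain ⟨i, hi, rfl⟩ : ∃ i, i < Q.kap ∧ n = Q.b4 + i := ⟨n - Q.b4, by omega, by omega⟩
      rw [(r4 Q hi).2.1, (r4 Q hi).2.2]
      constructor <;> split_ifs <;> omega
    · obtain ⟨i, hi, rfl⟩ : ∃ i, i < 4 ∧ n = Q.b5 + i := ⟨n - Q.b5, by omega, by omega⟩
      rw [(r5 Q hi).2.1, (r5 Q hi).2.2]
      have aA := accA_lt Q Q.m
      have aB := accB_lt Q Q.m
      constructor <;> split_ifs <;> omega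
  · show Q.b5 + 1 < Q.b5 + 4
    omega
  · show Q.b5 + 3 < Q.b5 + 4
    omega

/-! ### Evaluation -/

section eval
variable {Q : QSys} {x : ℕ → ℝ} (hx : Q.toPap.IsVal x)
include hx

theorem x_zero : x 0 = 1 := val_one hx (by rw [K_eq]; omega) (op_zero Q)

theorem x_one : x 1 = 2 := by
  have h1 : 1 < Q.b1 := by unfold QSys.b1; omega
  rw [val_add hx (k := 1) (by rw [K_eq]; omega) (op_one Q) (a_lt Q h1) (b_lt Q h1), x_zero hx]
  norm_num

theorem x_var {i : ℕ} (hi : i < 2 * Q.nv) : 1 < x (2 + i) :=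
  val_var hx (by rw [K_eq]; omega) (op_var Q hi)

theorem ref_val {X : ℕ → ℝ} (hX : ∀ i < 2 * Q.nv, x (2 + i) = X i) {r : ℕ} (hr : r < Q.nv + 2) :
    x (posRef r) - x (negRef r) = QSys.rval (fun v => X (2 * v) - X (2 * v + 1)) r := by
  match r, hr with
  | 0, _ => simp [posRef, negRef, QSys.rval]
  | 1, _ => simp [posRef, negRef, QSys.rval, x_zero hx, x_one hx]; norm_num
  | v + 2, hr =>
    have h1 : posRef (v + 2) = 2 + (2 * v) := by
      unfold posRef; rw [if_neg (by omega), if_neg (by omega)]; omega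
    have h2 : negRef (v + 2) = 2 + (2 * v + 1) := by
      unfold negRef; rw [if_neg (by omega), if_neg (by omega)]; omega
    rw [h1, h2, hX _ (by omega), hX _ (by omega)]
    rfl

theorem acc_val (h : Q.WF) {X : ℕ → ℝ} (hX : ∀ i < 2 * Q.nv, x (2 + i) = X i) (k : ℕ)
    (hk : k ≤ Q.m) : x (Q.accA k) - x (Q.accB k) =
      ∑ j ∈ Finset.range k, Q.E (fun v => X (2 * v) - X (2 * v + 1)) j ^ 2 := by
  induction k with
  | zero => simp [QSys.accA, QSys.accB]
  | succ k ih =>
    have ih := ih (by omega)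
    have hk : k < Q.m := by omega
    rw [Finset.sum_range_succ, ← ih]
    have hK : ∀ c < 17, Q.b1 + 17 * k + c < Q.toPap.K := by
      intro c hc; rw [K_eq]; unfold QSys.b1; omega
    have M : ∀ c < 17, QSys.eqOp c = true →
        x (Q.b1 + 17 * k + c) = x (Q.eqA k c) * x (Q.eqB k c) := by
      intro c hc ho
      exact val_mul hx (hK c hc) (by rw [op_eqn Q hk hc, ho]; rfl) (a_eqn Q hk hc) (b_eqn Q hk hc)
    have A : ∀ c < 17, QSys.eqOp c = false →
        x (Q.b1 + 17 * k + c) = x (Q.eqA k c) + x (Q.eqB k c) := by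
      intro c hc ho
      exact val_add hx (hK c hc) (by rw [op_eqn Q hk hc, ho]; rfl) (a_eqn Q hk hc) (b_eqn Q hk hc)
    have e0 := M 0 (by norm_num) (by decide)
    have e1 := M 1 (by norm_num) (by decide)
    have e2 := A 2 (by norm_num) (by decide)
    have e3 := A 3 (by norm_num) (by decide)
    have e4 := A 4 (by norm_num) (by decide)
    have e5 := M 5 (by norm_num) (by decide)
    have e6 := M 6 (by norm_num) (by decide)
    have e7 := A 7 (by norm_num) (by decide)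
    have e8 := A 8 (by norm_num) (by decide)
    have e9 := A 9 (by norm_num) (by decide)
    have e10 := M 10 (by norm_num) (by decide)
    have e11 := M 11 (by norm_num) (by decide)
    have e12 := M 12 (by norm_num) (by decide)
    have e13 := A 13 (by norm_num) (by decide)
    have e14 := A 14 (by norm_num) (by decide)
    have e15 := A 15 (by norm_num) (by decide)
    have e16 := A 16 (by norm_num) (by decide)
    simp only [QSys.eqA, QSys.eqB, add_zero] at e0 e1 e2 e3 e4 e5 e6 e7 e8 e9 e10 e11 e12 e13 e14 e15 e16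
    have hA : Q.accA (k + 1) = Q.b1 + 17 * k + 14 := by
      unfold QSys.accA; rw [if_neg (by omega)]; omega
    have hB : Q.accB (k + 1) = Q.b1 + 17 * k + 16 := by
      unfold QSys.accB; rw [if_neg (by omega)]; omega
    have v0 := ref_val hx hX (h k hk 0 (by norm_num))
    have v1 := ref_val hx hX (h k hk 1 (by norm_num))
    have v2 := ref_val hx hX (h k hk 2 (by norm_num))
    have v3 := ref_val hx hX (h k hk 3 (by norm_num))
    have hE : Q.E (fun v => X (2 * v) - X (2 * v + 1)) k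
        = x (Q.b1 + 17 * k + 4) - x (Q.b1 + 17 * k + 9) := by
      unfold QSys.E
      rw [← v0, ← v1, ← v2, ← v3, e4, e9, e3, e8, e2, e7, e5, e6, e0, e1]
      ring
    rw [hA, hB, hE, e14, e16, e15, e13, e12, e10, e11]
    ring

theorem sum_val {X : ℕ → ℝ} (hX : ∀ i < 2 * Q.nv, x (2 + i) = X i) (i : ℕ) (hi : i < 2 * Q.nv) :
    x (Q.b2 + i) = 1 + ∑ j ∈ Finset.range (i + 1), X j := by
  induction i with
  | zero =>
    have := val_add hx (k := Q.b2 + 0) (by rw [K_eq]; unfold QSys.b2 QSys.b1; omega) (r2 Q hi).1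
      (r2 Q hi).2.1 (r2 Q hi).2.2
    rw [this, hX 0 hi]; simp [x_zero hx]
  | succ i ih =>
    have := val_add hx (k := Q.b2 + (i + 1)) (by rw [K_eq]; unfold QSys.b2 QSys.b1; omega)
      (r2 Q hi).1 (r2 Q hi).2.1 (r2 Q hi).2.2
    rw [this, hX _ hi, if_neg (by omega), Finset.sum_range_succ,
      show Q.b2 + (i + 1) - 1 = Q.b2 + i by omega, ih (by omega)]
    ring

theorem tau_val (i : ℕ) (hi : i < Q.tau) : x (Q.b3 + i) = 2 ^ (2 ^ (i + 1)) := by
  induction i with
  | zero =>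
    have := val_mul hx (k := Q.b3 + 0) (by rw [K_eq]; unfold QSys.b3 QSys.b2 QSys.b1; omega)
      (r3 Q hi).1 (r3 Q hi).2.1 (r3 Q hi).2.2
    rw [this]; simp [x_one hx]; norm_num
  | succ i ih =>
    have := val_mul hx (k := Q.b3 + (i + 1)) (by rw [K_eq]; unfold QSys.b3 QSys.b2 QSys.b1; omega)
      (r3 Q hi).1 (r3 Q hi).2.1 (r3 Q hi).2.2
    rw [this, if_neg (by omega), show Q.b3 + (i + 1) - 1 = Q.b3 + i by omega, ih (by omega),
      ← pow_add, pow_succ 2 (i + 1)]
    ring_nf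

theorem kap_val (i : ℕ) (hi : i < Q.kap) : x (Q.b4 + i) = 2 ^ (2 ^ (i + 1)) := by
  induction i with
  | zero =>
    have := val_mul hx (k := Q.b4 + 0) (by rw [K_eq]; unfold QSys.b4 QSys.b3 QSys.b2 QSys.b1; omega)
      (r4 Q hi).1 (r4 Q hi).2.1 (r4 Q hi).2.2
    rw [this]; simp [x_one hx]; norm_num
  | succ i ih =>
    have := val_mul hx (k := Q.b4 + (i + 1))
      (by rw [K_eq]; unfold QSys.b4 QSys.b3 QSys.b2 QSys.b1; omega)
      (r4 Q hi).1 (r4 Q hi).2.1 (r4 Q hi).2.2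
    rw [this, if_neg (by omega), show Q.b4 + (i + 1) - 1 = Q.b4 + i by omega, ih (by omega),
      ← pow_add, pow_succ 2 (i + 1)]
    ring_nf

theorem fin_val (h : Q.WF) {X : ℕ → ℝ} (hX : ∀ i < 2 * Q.nv, x (2 + i) = X i) :
    x Q.toPap.l < x Q.toPap.r ↔
    (2 : ℝ) ^ (2 ^ Q.kap) * (∑ k ∈ Finset.range Q.m, Q.E (fun v => X (2 * v) - X (2 * v + 1)) k ^ 2)
      + (1 + ∑ i ∈ Finset.range (2 * Q.nv), X i) < (2 : ℝ) ^ (2 ^ Q.tau) := by
  have ht := tau_pos Q
  have hkp := kap_pos Q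
  have hK : ∀ i < 4, Q.b5 + i < Q.toPap.K := by
    intro i hi; show Q.b5 + i < Q.b5 + 4; omega
  have f0 := r5 Q (i := 0) (by norm_num)
  have f1 := r5 Q (i := 1) (by norm_num)
  have f2 := r5 Q (i := 2) (by norm_num)
  have f3 := r5 Q (i := 3) (by norm_num)
  norm_num at f0 f1 f2 f3
  have e0 := val_mul hx (k := Q.b5) (by simpa using hK 0 (by norm_num)) f0.1 f0.2.1 f0.2.2
  have e1 := val_add hx (hK 1 (by norm_num)) f1.1 f1.2.1 f1.2.2
  have e2 := val_mul hx (hK 2 (by norm_num)) f2.1 f2.2.1 f2.2.2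
  have e3 := val_add hx (hK 3 (by norm_num)) f3.1 f3.2.1 f3.2.2
  have hR : x (Q.b4 - 1) = 2 ^ (2 ^ Q.tau) := by
    have := tau_val hx (Q.tau - 1) (by omega)
    rw [show Q.b4 - 1 = Q.b3 + (Q.tau - 1) by unfold QSys.b4; omega, this,
      show Q.tau - 1 + 1 = Q.tau by omega]
  have hR' : x (Q.b5 - 1) = 2 ^ (2 ^ Q.kap) := by
    have := kap_val hx (Q.kap - 1) (by omega)
    rw [show Q.b5 - 1 = Q.b4 + (Q.kap - 1) by unfold QSys.b5; omega, this,
      show Q.kap - 1 + 1 = Q.kap by omega]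
  have hS : x (if Q.nv = 0 then 0 else Q.b3 - 1) = 1 + ∑ i ∈ Finset.range (2 * Q.nv), X i := by
    by_cases h0 : Q.nv = 0
    · rw [if_pos h0, x_zero hx, h0]; simp
    · rw [if_neg h0, show Q.b3 - 1 = Q.b2 + (2 * Q.nv - 1) by unfold QSys.b3; omega,
        sum_val hx hX _ (by omega), show 2 * Q.nv - 1 + 1 = 2 * Q.nv by omega]
  have hacc := acc_val hx h hX Q.m le_rfl
  show x (Q.b5 + 1) < x (Q.b5 + 3) ↔ _
  rw [e3, e2, e1, e0, hR, hR', hS, ← hacc]
  constructor <;> intro hh <;> linarith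

end eval

theorem toPap_correct (Q : QSys) (h : Q.WF) : Q.toPap.WF ∧ (Q.Sat' ↔ Q.toPap.Sat) := by
  refine ⟨toPap_WF Q h, ?_, ?_⟩
  · rintro ⟨X, hX1, hX2⟩
    have hval : Q.toPap.IsVal (run Q.toPap (fun n => X (n - 2))) := by
      refine run_isVal _ (toPap_WF Q h) _ ?_
      intro k hk ho
      have hk2 : 2 ≤ k ∧ k < Q.b1 := by
        by_contra hcon
        have hK : k < Q.b5 + 4 := hk
        rcases lt_or_ge k Q.b1 with h1 | h1
        · have : k = 0 ∨ k = 1 := by omega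
          rcases this with rfl | rfl
          · rw [op_zero] at ho; cases ho
          · rw [op_one] at ho; cases ho
        rcases lt_or_ge k Q.b2 with h2 | h2
        · obtain ⟨k', c, hk', hc, rfl⟩ : ∃ k' c, k' < Q.m ∧ c < 17 ∧ k = Q.b1 + 17 * k' + c :=
            ⟨(k - Q.b1) / 17, (k - Q.b1) % 17, by unfold QSys.b2 at h2; omega, by omega, by omega⟩
          rw [op_eqn Q hk' hc] at ho
          split_ifs at ho
        rcases lt_or_ge k Q.b3 with h3 | h3
        · obtain ⟨i, hi, rfl⟩ : ∃ i, i < 2 * Q.nv ∧ k = Q.b2 + i :=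
            ⟨k - Q.b2, by unfold QSys.b3 at h3; omega, by omega⟩
          rw [(r2 Q hi).1] at ho; cases ho
        rcases lt_or_ge k Q.b4 with h4 | h4
        · obtain ⟨i, hi, rfl⟩ : ∃ i, i < Q.tau ∧ k = Q.b3 + i :=
            ⟨k - Q.b3, by unfold QSys.b4 at h4; omega, by omega⟩
          rw [(r3 Q hi).1] at ho; cases ho
        rcases lt_or_ge k Q.b5 with h5 | h5
        · obtain ⟨i, hi, rfl⟩ : ∃ i, i < Q.kap ∧ k = Q.b4 + i :=
            ⟨k - Q.b4, by unfold QSys.b5 at h5; omega, by omega⟩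
          rw [(r4 Q hi).1] at ho; cases ho
        · obtain ⟨i, hi, rfl⟩ : ∃ i, i < 4 ∧ k = Q.b5 + i := ⟨k - Q.b5, by omega, by omega⟩
          rw [(r5 Q hi).1] at ho
          split_ifs at ho
      exact hX1 _ (by unfold QSys.b1 at hk2; omega)
    refine ⟨_, hval, ?_⟩
    rw [fin_val hval h (X := X)]
    · exact hX2
    · intro i hi
      rw [run_var _ _ _ (op_var Q hi)]
      simp
  · rintro ⟨x, hx, hlt⟩
    refine ⟨fun i => x (2 + i), fun i hi => x_var hx hi, ?_⟩
    exact (fin_val hx h (X := fun i => x (2 + i)) (fun i _ => rfl)).1 hlt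

end Pool.Agent.helper50.M3
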